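import Pool.Agent.AutDim3.Defs

set_option autoImplicit false

namespace Pool.Agent.AutDim3

variable {G G' G'' : Type}

theorem cone_sg (x : G) (l : List G) : cone x (sg l) = sg (x :: l) := by
  simp [cone, sg, Finsupp.lmapDomain_apply, Finsupp.mapDomain_single]

theorem push_sg (f : G → G') (l : List G) : push f (sg l) = sg (l.map f) := by
  simp [push, sg, Finsupp.lmapDomain_apply, Finsupp.mapDomain_single]

theorem bd_sg (l : List G) : bd (sg l) = bdL l := by
  simp [bd, sg]

/-- Linear maps out of chains are equal if they agree on lists. -/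
theorem ext_sg {M : Type} [AddCommMonoid M] [Module ℝ M] {f g : Ch G →ₗ[ℝ] M}
    (h : ∀ l, f (sg l) = g (sg l)) : f = g := by
  apply Finsupp.lhom_ext
  intro l r
  have := h l
  rw [← mul_one r, ← smul_eq_mul, ← Finsupp.smul_single, map_smul, map_smul]
  exact congrArg _ this

theorem bd_nil : bd (sg ([] : List G)) = 0 := by
  rw [bd_sg]; rfl

theorem bd_cons (x : G) (l : List G) : bd (sg (x :: l)) = sg l - cone x (bd (sg l)) := by
  rw [bd_sg, bd_sg]; rfl

theorem bd_cone (x : G) (w : Ch G) : bd (cone x w) = w - cone x (bd w) := by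
  have : bd ∘ₗ cone x = LinearMap.id - cone x ∘ₗ bd := by
    apply ext_sg
    intro l
    simp only [LinearMap.comp_apply, LinearMap.sub_apply, LinearMap.id_apply]
    rw [cone_sg, bd_cons]
  exact LinearMap.congr_fun this w

theorem bd_bd_sg (l : List G) : bd (bd (sg l)) = 0 := by
  induction l with
  | nil => rw [bd_nil, map_zero]
  | cons x l ih => rw [bd_cons, map_sub, bd_cone, ih, map_zero]; simp

theorem bd_bd (w : Ch G) : bd (bd w) = 0 := by
  have : (bd : Ch G →ₗ[ℝ] Ch G) ∘ₗ bd = 0 := by
    apply ext_sg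
    intro l
    simp only [LinearMap.comp_apply, LinearMap.zero_apply]
    exact bd_bd_sg l
  exact LinearMap.congr_fun this w

theorem push_cone (f : G → G') (x : G) (w : Ch G) :
    push f (cone x w) = cone (f x) (push f w) := by
  have : push f ∘ₗ cone x = cone (f x) ∘ₗ push f := by
    apply ext_sg
    intro l
    simp only [LinearMap.comp_apply]
    rw [cone_sg, push_sg, push_sg, cone_sg, List.map_cons]
  exact LinearMap.congr_fun this w

theorem push_bd (f : G → G') (w : Ch G) : push f (bd w) = bd (push f w) := by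
  have : push f ∘ₗ bd = bd ∘ₗ push f := by
    apply ext_sg
    intro l
    simp only [LinearMap.comp_apply]
    induction l with
    | nil => rw [bd_nil, push_sg, List.map_nil, bd_nil, map_zero]
    | cons x l ih => rw [bd_cons, map_sub, push_cone, push_sg, push_sg, List.map_cons, bd_cons, ih,
        push_sg]
  exact LinearMap.congr_fun this w

theorem push_push (f : G → G') (g : G' → G'') (w : Ch G) :
    push g (push f w) = push (g ∘ f) w := by
  have : push g ∘ₗ push f = push (g ∘ f) := by
    apply ext_sg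
    intro l
    simp only [LinearMap.comp_apply]
    rw [push_sg, push_sg, push_sg, List.map_map]
  exact LinearMap.congr_fun this w

theorem push_id (w : Ch G) : push (fun x : G => x) w = w := by
  have : push (fun x : G => x) = (LinearMap.id : Ch G →ₗ[ℝ] Ch G) := by
    apply ext_sg
    intro l
    rw [push_sg]
    simp
  exact LinearMap.congr_fun this w

/-! ### degrees -/

theorem sg_mem_supported {s : Set (List G)} {l : List G} (h : l ∈ s) :
    sg l ∈ Finsupp.supported ℝ ℝ s := by
  unfold sg
  exact Finsupp.single_mem_supported ℝ 1 h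

/-- A linear map sends chains supported in `s` to `P` if it does so on lists. -/
theorem map_mem_of_sg {M : Type} [AddCommMonoid M] [Module ℝ M] {s : Set (List G)}
    {P : Submodule ℝ M} (f : Ch G →ₗ[ℝ] M) (h : ∀ l ∈ s, f (sg l) ∈ P) {w : Ch G}
    (hw : w ∈ Finsupp.supported ℝ ℝ s) : f w ∈ P := by
  rw [Finsupp.supported_eq_span_single] at hw
  have : Submodule.span ℝ ((fun i => Finsupp.single i (1 : ℝ)) '' s) ≤ P.comap f := by
    rw [Submodule.span_le]
    rintro _ ⟨l, hl, rfl⟩
    exact h l hl
  exact this hw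

/-- Two linear maps that agree on the lists of `s` agree on chains supported in `s`. -/
theorem eq_of_sg {M : Type} [AddCommGroup M] [Module ℝ M] {s : Set (List G)}
    (f g : Ch G →ₗ[ℝ] M) (h : ∀ l ∈ s, f (sg l) = g (sg l)) {w : Ch G}
    (hw : w ∈ Finsupp.supported ℝ ℝ s) : f w = g w := by
  have := map_mem_of_sg (P := (⊥ : Submodule ℝ M)) (f - g)
    (fun l hl => by simp [h l hl]) hw
  rw [Submodule.mem_bot, LinearMap.sub_apply, sub_eq_zero] at this
  exact this

theorem sg_mem_deg {n : ℕ} {l : List G} (h : l.length = n) : sg l ∈ Deg (G := G) n :=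
  sg_mem_supported h

theorem cone_mem_deg {n : ℕ} (x : G) {w : Ch G} (hw : w ∈ Deg (G := G) n) :
    cone x w ∈ Deg (G := G) (n + 1) := by
  refine map_mem_of_sg (cone x) ?_ hw
  intro l hl
  rw [cone_sg]
  exact sg_mem_deg (by simpa using hl)

theorem push_mem_deg {n : ℕ} (f : G → G') {w : Ch G} (hw : w ∈ Deg (G := G) n) :
    push f w ∈ Deg (G := G') n := by
  refine map_mem_of_sg (push f) ?_ hw
  intro l hl
  rw [push_sg]
  exact sg_mem_deg (by simpa using hl)

theorem bd_sg_mem_deg {n : ℕ} {l : List G} (h : l.length = n + 1) :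
    bd (sg l) ∈ Deg (G := G) n := by
  induction n generalizing l with
  | zero =>
    match l, h with
    | [x], _ =>
      rw [bd_cons, bd_nil, map_zero, sub_zero]
      exact sg_mem_deg rfl
  | succ n ih =>
    match l, h with
    | x :: l, h =>
      have h' : l.length = n + 1 := by simpa using h
      rw [bd_cons]
      exact Submodule.sub_mem _ (sg_mem_deg h') (cone_mem_deg x (ih h'))

theorem bd_mem_deg {n : ℕ} {w : Ch G} (hw : w ∈ Deg (G := G) (n + 1)) :
    bd w ∈ Deg (G := G) n :=
  map_mem_of_sg bd (fun _ hl => bd_sg_mem_deg hl) hw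

/-- A chain with boundary zero is a boundary. -/
theorem eq_bd_cone {x : G} {w : Ch G} (hw : bd w = 0) : w = bd (cone x w) := by
  rw [bd_cone, hw, map_zero, sub_zero]

/-! ### faces: the vertices of the boundary -/

/-- The lists in the boundary of `l` have their entries in `l`. -/
theorem bd_sg_mem_sub (l : List G) :
    bd (sg l) ∈ Finsupp.supported ℝ ℝ {m : List G | m ⊆ l} := by
  induction l with
  | nil => rw [bd_nil]; exact Submodule.zero_mem _
  | cons x l ih =>
    rw [bd_cons]
    refine Submodule.sub_mem _ (sg_mem_supported (by simp)) ?_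
    refine map_mem_of_sg (cone x) ?_ ih
    intro m hm
    rw [cone_sg]
    exact sg_mem_supported (List.cons_subset_cons x hm)

/-! ### the norm -/

theorem nrm_eq (w : Ch G) : nrm w = ∑ l ∈ w.support, |w l| := rfl

theorem nrm_eq_of_subset (w : Ch G) {s : Finset (List G)} (h : w.support ⊆ s) :
    nrm w = ∑ l ∈ s, |w l| := by
  rw [nrm_eq]
  refine Finset.sum_subset h ?_
  intro l _ hl
  rw [Finsupp.notMem_support_iff] at hl
  rw [hl, abs_zero]

theorem nrm_nonneg (w : Ch G) : 0 ≤ nrm w := by
  rw [nrm_eq]
  exact Finset.sum_nonneg fun _ _ => abs_nonneg _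

theorem nrm_zero : nrm (0 : Ch G) = 0 := by
  rw [nrm_eq]; simp

theorem nrm_sg (l : List G) : nrm (sg l) = 1 := by
  classical
  rw [nrm_eq_of_subset (sg l) (s := {l}) (by unfold sg; exact Finsupp.support_single_subset)]
  simp [sg]

theorem nrm_add_le (v w : Ch G) : nrm (v + w) ≤ nrm v + nrm w := by
  classical
  rw [nrm_eq_of_subset (v + w) (s := v.support ∪ w.support) Finsupp.support_add,
    nrm_eq_of_subset v (s := v.support ∪ w.support) Finset.subset_union_left,
    nrm_eq_of_subset w (s := v.support ∪ w.support) Finset.subset_union_right,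
    ← Finset.sum_add_distrib]
  exact Finset.sum_le_sum fun l _ => by rw [Finsupp.add_apply]; exact abs_add_le _ _

theorem nrm_smul (r : ℝ) (w : Ch G) : nrm (r • w) = |r| * nrm w := by
  classical
  rw [nrm_eq_of_subset (r • w) (s := w.support) Finsupp.support_smul, nrm_eq, Finset.mul_sum]
  exact Finset.sum_congr rfl fun l _ => by rw [Finsupp.smul_apply, smul_eq_mul, abs_mul]

theorem nrm_neg (w : Ch G) : nrm (-w) = nrm w := by
  rw [← neg_one_smul ℝ w, nrm_smul]; simp

theorem nrm_sub_le (v w : Ch G) : nrm (v - w) ≤ nrm v + nrm w := by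
  rw [sub_eq_add_neg, ← nrm_neg w]
  exact nrm_add_le _ _

theorem nrm_sum_le {ι : Type} (s : Finset ι) (f : ι → Ch G) :
    nrm (∑ i ∈ s, f i) ≤ ∑ i ∈ s, nrm (f i) := by
  classical
  induction s using Finset.induction_on with
  | empty => simp [nrm_zero]
  | insert i s hi ih =>
    rw [Finset.sum_insert hi, Finset.sum_insert hi]
    exact (nrm_add_le _ _).trans (by linarith)

/-- A linear map which has norm at most `c` on the lists of the support of `w`. -/
theorem nrm_map_le (f : Ch G →ₗ[ℝ] Ch G') (w : Ch G) {c : ℝ}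
    (h : ∀ l ∈ w.support, nrm (f (sg l)) ≤ c) : nrm (f w) ≤ c * nrm w := by
  classical
  have hw : w = ∑ l ∈ w.support, w l • sg l := by
    conv_lhs => rw [← Finsupp.sum_single w]
    unfold Finsupp.sum
    refine Finset.sum_congr rfl fun l _ => ?_
    unfold sg
    rw [Finsupp.smul_single, smul_eq_mul, mul_one]
  calc nrm (f w) = nrm (∑ l ∈ w.support, w l • f (sg l)) := by
        conv_lhs => rw [hw, map_sum]
        simp only [map_smul]
    _ ≤ ∑ l ∈ w.support, nrm (w l • f (sg l)) := nrm_sum_le _ _
    _ ≤ ∑ l ∈ w.support, c * |w l| := by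
        refine Finset.sum_le_sum fun l hl => ?_
        rw [nrm_smul, mul_comm c]
        exact mul_le_mul_of_nonneg_left (h l hl) (abs_nonneg _)
    _ = c * nrm w := by rw [← Finset.mul_sum, nrm_eq]

/-- A functional bounded by `c` on the lists of the support of `w`. -/
theorem abs_le_nrm (f : Ch G →ₗ[ℝ] ℝ) (w : Ch G) {c : ℝ}
    (h : ∀ l ∈ w.support, |f (sg l)| ≤ c) : |f w| ≤ c * nrm w := by
  classical
  have hw : w = ∑ l ∈ w.support, w l • sg l := by
    conv_lhs => rw [← Finsupp.sum_single w]
    unfold Finsupp.sum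
    refine Finset.sum_congr rfl fun l _ => ?_
    unfold sg
    rw [Finsupp.smul_single, smul_eq_mul, mul_one]
  calc |f w| = |∑ l ∈ w.support, w l * f (sg l)| := by
        conv_lhs => rw [hw, map_sum]
        simp only [map_smul, smul_eq_mul]
    _ ≤ ∑ l ∈ w.support, |w l * f (sg l)| := Finset.abs_sum_le_sum_abs _ _
    _ ≤ ∑ l ∈ w.support, c * |w l| := by
        refine Finset.sum_le_sum fun l hl => ?_
        rw [abs_mul, mul_comm c]
        exact mul_le_mul_of_nonneg_left (h l hl) (abs_nonneg _)
    _ = c * nrm w := by rw [← Finset.mul_sum, nrm_eq]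

theorem nrm_push_le (f : G → G') (w : Ch G) : nrm (push f w) ≤ nrm w := by
  have := nrm_map_le (push f) w (c := 1) (fun l _ => by rw [push_sg, nrm_sg])
  simpa using this

theorem nrm_cone_le (x : G) (w : Ch G) : nrm (cone x w) ≤ nrm w := by
  have := nrm_map_le (cone x) w (c := 1) (fun l _ => by rw [cone_sg, nrm_sg])
  simpa using this

theorem nrm_bd_sg_le (l : List G) : nrm (bd (sg l)) ≤ l.length := by
  induction l with
  | nil => rw [bd_nil, nrm_zero]; simp
  | cons x l ih =>
    rw [bd_cons]
    refine (nrm_sub_le _ _).trans ?_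
    rw [nrm_sg]
    have := nrm_cone_le x (bd (sg l))
    push_cast [List.length_cons]
    linarith

/-- Invariance of a functional, for all chains. -/
theorem InvUnder.apply {N : Type} [Group N] [Group G] {φ : N →* G} {F : Ch G →ₗ[ℝ] ℝ}
    (h : InvUnder φ F) (n : N) (w : Ch G) : F (push (φ n * ·) w) = F w := by
  have : F ∘ₗ push (φ n * ·) = F := by
    apply ext_sg
    intro l
    rw [LinearMap.comp_apply, push_sg]
    exact h n l
  exact LinearMap.congr_fun this w

theorem Closed.apply {n : ℕ} {F : Ch G →ₗ[ℝ] ℝ} (h : Closed n F) {w : Ch G}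
    (hw : w ∈ Deg (G := G) (n + 1)) : F (bd w) = 0 := by
  have := eq_of_sg (F ∘ₗ bd) 0 (fun l hl => by simpa using h l hl) hw
  simpa using this

end Pool.Agent.AutDim3
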