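import Mathlib

set_option autoImplicit false

/-!
# Automatic groups of dimension at most three: definitions

Chains are finite real combinations of finite lists of elements of `G` (a list with `k + 1` entries is
a `k`-simplex of the homogeneous bar complex, the empty list is the augmentation).
-/

namespace Pool.Agent.AutDim3

/-- Automatic group, word for word as in the frozen statement `S02535`. -/
def IsAutomatic (G : Type) [Group G] : Prop :=
  ∃ (S : Finset G), (∀ s ∈ S, s⁻¹ ∈ S) ∧
      ∃ (L : Language {x // x ∈ S}),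
        (∃ (σ : Type) (_ : Fintype σ) (M : DFA {x // x ∈ S} σ), M.accepts = L) ∧
        (∀ g : G, ∃ w ∈ L, (w.map Subtype.val).prod = g) ∧
        ∃ K : ℕ, ∀ w ∈ L, ∀ v ∈ L,
          (∃ l : List G, l.length ≤ 1 ∧ (∀ x ∈ l, x ∈ S) ∧
              (w.map Subtype.val).prod * l.prod = (v.map Subtype.val).prod) →
          ∀ t : ℕ, ∃ l : List G, l.length ≤ K ∧ (∀ x ∈ l, x ∈ S) ∧
              ((w.take t).map Subtype.val).prod * l.prod = ((v.take t).map Subtype.val).prod

/-- `H^4(G; M) = 0` for every real vector space `M` with a linear action of `G`, in terms of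
homogeneous cochains: every equivariant `c : G^5 → M` whose coboundary vanishes is the coboundary of
an equivariant `b : G^4 → M`. This says that `G` has cohomological dimension at most three over the
real numbers. -/
def DimLeThree (G : Type) [Group G] : Prop :=
  ∀ (M : Type) [AddCommGroup M] [Module ℝ M] (ρ : Representation ℝ G M) (c : (Fin 5 → G) → M),
    (∀ (g : G) (σ : Fin 5 → G), c (fun i => g * σ i) = ρ g (c σ)) →
    (∀ τ : Fin 6 → G, ∑ i : Fin 6, (-1 : ℝ) ^ (i : ℕ) • c (fun j => τ (i.succAbove j)) = 0) →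
    ∃ b : (Fin 4 → G) → M,
      (∀ (g : G) (σ : Fin 4 → G), b (fun i => g * σ i) = ρ g (b σ)) ∧
      ∀ σ : Fin 5 → G, c σ = ∑ i : Fin 5, (-1 : ℝ) ^ (i : ℕ) • b (fun j => σ (i.succAbove j))

/-- The integer Heisenberg group, in coordinates. -/
@[ext] structure Heis where
  x : ℤ
  y : ℤ
  z : ℤ

namespace Heis

instance : Mul Heis := ⟨fun g h => ⟨g.x + h.x, g.y + h.y, g.z + h.z + g.x * h.y⟩⟩
instance : One Heis := ⟨⟨0, 0, 0⟩⟩
instance : Inv Heis := ⟨fun g => ⟨-g.x, -g.y, -g.z + g.x * g.y⟩⟩

@[simp] theorem mul_x (g h : Heis) : (g * h).x = g.x + h.x := rfl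
@[simp] theorem mul_y (g h : Heis) : (g * h).y = g.y + h.y := rfl
@[simp] theorem mul_z (g h : Heis) : (g * h).z = g.z + h.z + g.x * h.y := rfl
@[simp] theorem one_x : (1 : Heis).x = 0 := rfl
@[simp] theorem one_y : (1 : Heis).y = 0 := rfl
@[simp] theorem one_z : (1 : Heis).z = 0 := rfl
@[simp] theorem inv_x (g : Heis) : (g⁻¹).x = -g.x := rfl
@[simp] theorem inv_y (g : Heis) : (g⁻¹).y = -g.y := rfl
@[simp] theorem inv_z (g : Heis) : (g⁻¹).z = -g.z + g.x * g.y := rfl

instance : Group Heis where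
  mul_assoc a b c := by ext <;> simp <;> ring
  one_mul a := by ext <;> simp
  mul_one a := by ext <;> simp
  inv_mul_cancel a := by ext <;> simp

/-- The generators. -/
def a : Heis := ⟨1, 0, 0⟩
/-- The generators. -/
def b : Heis := ⟨0, 1, 0⟩
/-- The central element. -/
def c : Heis := ⟨0, 0, 1⟩

/-- The dilation by `t`, an endomorphism of the Heisenberg group. -/
def dil (t : ℕ) : Heis →* Heis where
  toFun g := ⟨t * g.x, t * g.y, t ^ 2 * g.z⟩
  map_one' := by ext <;> simp
  map_mul' g h := by ext <;> simp <;> ring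

end Heis

/-- Chains. -/
abbrev Ch (G : Type) := List G →₀ ℝ

/-- The boundary of a list. -/
noncomputable def bdL {G : Type} : List G → Ch G
  | [] => 0
  | x :: l => Finsupp.single l 1 - Finsupp.mapDomain (List.cons x) (bdL l)

/-- The boundary of a chain. -/
noncomputable def bd {G : Type} : Ch G →ₗ[ℝ] Ch G := Finsupp.linearCombination ℝ bdL

/-- The cone with vertex `x`. -/
noncomputable def cone {G : Type} (x : G) : Ch G →ₗ[ℝ] Ch G :=
  Finsupp.lmapDomain ℝ ℝ (List.cons x)

/-- Push-forward by a map of vertices. -/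
noncomputable def push {G G' : Type} (f : G → G') : Ch G →ₗ[ℝ] Ch G' :=
  Finsupp.lmapDomain ℝ ℝ (List.map f)

/-- The basis chain of a list. -/
noncomputable def sg {G : Type} (l : List G) : Ch G := Finsupp.single l 1

/-- Chains all of whose lists have `n` entries. -/
def Deg {G : Type} (n : ℕ) : Submodule ℝ (Ch G) :=
  Finsupp.supported ℝ ℝ {l : List G | l.length = n}

/-- The `ℓ¹` norm of a chain. -/
noncomputable def nrm {G : Type} (w : Ch G) : ℝ := w.sum fun _ r => |r|

/-- A length function with finite balls, and a combing of linear speed. -/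
structure Comb (G : Type) [Group G] where
  len : G → ℕ
  len_one : len 1 = 0
  len_inv : ∀ g, len g⁻¹ = len g
  len_mul : ∀ g h, len (g * h) ≤ len g + len h
  fin_ball : ∀ n, {g | len g ≤ n}.Finite
  u : G → ℕ → G
  K : ℕ
  c : ℕ
  u_zero : ∀ g, u g 0 = 1
  u_step : ∀ g t, len ((u g t)⁻¹ * u g (t + 1)) ≤ K
  u_fellow : ∀ g h t, len ((u g t)⁻¹ * u h t) ≤ K * len (g⁻¹ * h)
  u_end : ∀ g t, c * (1 + len g) ≤ t → u g t = g

/-- A list has diameter at most `d`. -/
def Comb.Small {G : Type} [Group G] (C : Comb G) (d : ℕ) (l : List G) : Prop :=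
  ∀ p ∈ l, ∀ q ∈ l, C.len (p⁻¹ * q) ≤ d

/-- The list of partial products. -/
def tup {G : Type} [Group G] (g h k : G) : List G := [1, g, g * h, g * h * k]

/-- The fundamental cycle of the Heisenberg group. -/
noncomputable def fund : Ch Heis :=
  sg (tup Heis.a Heis.c Heis.b) - sg (tup Heis.c Heis.a Heis.b) - sg (tup Heis.a Heis.b Heis.c)
    + sg (tup Heis.c Heis.b Heis.a) - sg (tup Heis.b Heis.c Heis.a) + sg (tup Heis.b Heis.a Heis.c)
    + sg (tup Heis.c (Heis.b * Heis.a) Heis.c)

/-- The volume cocycle of the Heisenberg group on lists. -/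
noncomputable def nuL : List Heis → ℝ
  | [p, q, r, s] =>
      ((p⁻¹ * q).x : ℝ) * (((q⁻¹ * r).z : ℝ) * ((r⁻¹ * s).y : ℝ)
        + ((q⁻¹ * r).x : ℝ) * ((r⁻¹ * s).y : ℝ) ^ 2 / 2)
  | _ => 0

/-- The volume cocycle of the Heisenberg group. -/
noncomputable def nu : Ch Heis →ₗ[ℝ] ℝ := Finsupp.linearCombination ℝ nuL

/-- A functional is invariant under (the image of) `φ`. -/
def InvUnder {N G : Type} [Group N] [Group G] (φ : N →* G) (F : Ch G →ₗ[ℝ] ℝ) : Prop :=
  ∀ (n : N) (l : List G), F (sg (l.map (φ n * ·))) = F (sg l)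

/-- A functional is a cocycle on lists with `n` entries. -/
def Closed {G : Type} (n : ℕ) (F : Ch G →ₗ[ℝ] ℝ) : Prop :=
  ∀ l : List G, l.length = n + 1 → F (bd (sg l)) = 0

end Pool.Agent.AutDim3
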