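import Pool.Agent.AutDim3.Chain

set_option autoImplicit false

namespace Pool.Agent.AutDim3

/-! ### the prism operator of two maps of vertices -/

section Prism

variable {G : Type}

/-- The prism between two maps, on a list. -/
noncomputable def prL (f f' : G → G) : List G → Ch G
  | [] => 0
  | x :: l => cone (f x) (cone (f' x) (sg (l.map f')) - prL f f' l)

/-- The prism between two maps. -/
noncomputable def pr (f f' : G → G) : Ch G →ₗ[ℝ] Ch G := Finsupp.linearCombination ℝ (prL f f')

theorem pr_sg (f f' : G → G) (l : List G) : pr f f' (sg l) = prL f f' l := by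
  simp [pr, sg]

theorem pr_nil (f f' : G → G) : pr f f' (sg []) = 0 := by rw [pr_sg]; rfl

theorem pr_cons (f f' : G → G) (x : G) (l : List G) :
    pr f f' (sg (x :: l)) = cone (f x) (cone (f' x) (push f' (sg l)) - pr f f' (sg l)) := by
  rw [pr_sg, pr_sg, push_sg]; rfl

theorem pr_cone (f f' : G → G) (x : G) (w : Ch G) :
    pr f f' (cone x w) = cone (f x) (cone (f' x) (push f' w) - pr f f' w) := by
  have : pr f f' ∘ₗ cone x = cone (f x) ∘ₗ (cone (f' x) ∘ₗ push f' - pr f f') := by
    apply ext_sg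
    intro l
    simp only [LinearMap.comp_apply, LinearMap.sub_apply]
    rw [cone_sg, pr_cons]
  exact LinearMap.congr_fun this w

theorem pr_htpy_sg (f f' : G → G) (l : List G) :
    bd (pr f f' (sg l)) + pr f f' (bd (sg l)) = push f' (sg l) - push f (sg l) := by
  induction l with
  | nil => rw [pr_nil, bd_nil, map_zero, map_zero, push_sg, push_sg]; simp
  | cons x l ih =>
    have ih' : bd (pr f f' (sg l)) = push f' (sg l) - push f (sg l) - pr f f' (bd (sg l)) := by
      rw [← ih]; abel
    rw [pr_cons, bd_cone, map_sub, bd_cone, ih', bd_cons, map_sub (pr f f'), pr_cone, push_bd,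
      ← cone_sg, push_cone, push_cone]
    simp only [map_sub]
    abel

theorem pr_htpy (f f' : G → G) (w : Ch G) :
    bd (pr f f' w) + pr f f' (bd w) = push f' w - push f w := by
  have : bd ∘ₗ pr f f' + pr f f' ∘ₗ bd = push f' - push f := by
    apply ext_sg
    intro l
    simp only [LinearMap.comp_apply, LinearMap.add_apply, LinearMap.sub_apply]
    exact pr_htpy_sg f f' l
  exact LinearMap.congr_fun this w

theorem push_pr (k f f' F F' : G → G) (h : ∀ x, k (f x) = F (k x)) (h' : ∀ x, k (f' x) = F' (k x))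
    (w : Ch G) : push k (pr f f' w) = pr F F' (push k w) := by
  have : push k ∘ₗ pr f f' = pr F F' ∘ₗ push k := by
    apply ext_sg
    intro l
    simp only [LinearMap.comp_apply]
    induction l with
    | nil => rw [pr_nil, push_sg, List.map_nil, pr_nil, map_zero]
    | cons x l ih =>
      rw [pr_cons, push_cone, map_sub, push_cone, ih, ← cone_sg, push_cone, pr_cone, h, h',
        push_push, push_push]
      have : k ∘ f' = F' ∘ k := by ext x; exact h' x
      rw [this]
  exact LinearMap.congr_fun this w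

theorem pr_sg_mem (f f' : G → G) (l : List G) :
    pr f f' (sg l) ∈ Finsupp.supported ℝ ℝ
      {m : List G | m.length = l.length + 1 ∧ m ⊆ l.map f ++ l.map f'} := by
  induction l with
  | nil => rw [pr_nil]; exact Submodule.zero_mem _
  | cons x l ih =>
    rw [pr_cons, map_sub, push_sg, cone_sg, cone_sg]
    refine Submodule.sub_mem _ (sg_mem_supported ?_) ?_
    · refine ⟨by simp, ?_⟩
      intro y hy
      simp only [List.mem_cons, List.map_cons, List.mem_append] at hy ⊢
      tauto
    · refine map_mem_of_sg (cone (f x)) ?_ ih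
      rintro m ⟨hm1, hm2⟩
      rw [cone_sg]
      refine sg_mem_supported ⟨by simp [hm1], ?_⟩
      intro y hy
      simp only [List.mem_cons, List.map_cons, List.mem_append] at hy ⊢
      rcases hy with hy | hy
      · tauto
      · have := hm2 hy
        rw [List.mem_append] at this
        tauto

theorem nrm_pr_sg_le (f f' : G → G) (l : List G) : nrm (pr f f' (sg l)) ≤ l.length := by
  induction l with
  | nil => rw [pr_nil, nrm_zero]; simp
  | cons x l ih =>
    rw [pr_cons]
    refine (nrm_cone_le _ _).trans ((nrm_sub_le _ _).trans ?_)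
    have h1 : nrm (cone (f' x) (push f' (sg l))) ≤ 1 := by
      rw [push_sg, cone_sg, nrm_sg]
    push_cast [List.length_cons]
    linarith

end Prism

/-! ### filling along the combing -/

section Fill

variable {G : Type} [Group G] (C : Comb G)

/-- The contraction towards `x` along the combing. -/
def Comb.E (x : G) (t : ℕ) (h : G) : G := x * C.u (x⁻¹ * h) t

theorem Comb.E_zero (x h : G) : C.E x 0 h = x := by simp [Comb.E, C.u_zero]

theorem Comb.E_equiv (g x : G) (t : ℕ) (h : G) : g * C.E x t h = C.E (g * x) t (g * h) := by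
  unfold Comb.E
  rw [mul_inv_rev, mul_assoc x⁻¹, inv_mul_cancel_left, mul_assoc]

theorem Comb.E_end (x : G) (t : ℕ) (h : G) (ht : C.c * (1 + C.len (x⁻¹ * h)) ≤ t) :
    C.E x t h = h := by
  unfold Comb.E
  rw [C.u_end _ _ ht, mul_inv_cancel_left]

theorem Comb.len_u_le (g : G) (t : ℕ) : C.len (C.u g t) ≤ C.K * t := by
  induction t with
  | zero => rw [C.u_zero, C.len_one]; simp
  | succ t ih =>
    have h1 : C.u g (t + 1) = C.u g t * ((C.u g t)⁻¹ * C.u g (t + 1)) := by group
    rw [h1]
    refine (C.len_mul _ _).trans ?_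
    have := C.u_step g t
    rw [Nat.mul_succ]
    omega

theorem Comb.len_E_le (x : G) (t : ℕ) (h : G) : C.len (x⁻¹ * C.E x t h) ≤ C.K * t := by
  unfold Comb.E
  rw [inv_mul_cancel_left]
  exact C.len_u_le _ _

theorem Comb.len_E_E (x : G) (t s s' : ℕ) (hs : s = t ∨ s = t + 1) (hs' : s' = t ∨ s' = t + 1)
    (h h' : G) : C.len ((C.E x s h)⁻¹ * C.E x s' h') ≤ C.K * C.len (h⁻¹ * h') + C.K := by
  have h0 : ∀ (g : G), C.len ((C.u g s)⁻¹ * C.u g s') ≤ C.K := by
    intro g
    rcases hs with rfl | rfl <;> rcases hs' with rfl | rfl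
    · rw [inv_mul_cancel, C.len_one]; omega
    · exact C.u_step g s
    · have := C.u_step g s'
      rw [← C.len_inv, mul_inv_rev, inv_inv]
      exact this
    · rw [inv_mul_cancel, C.len_one]; omega
  have h1 : (C.E x s h)⁻¹ * C.E x s' h' =
      ((C.u (x⁻¹ * h) s)⁻¹ * C.u (x⁻¹ * h') s) *
        ((C.u (x⁻¹ * h') s)⁻¹ * C.u (x⁻¹ * h') s') := by
    unfold Comb.E
    group
  have h2 : (x⁻¹ * h)⁻¹ * (x⁻¹ * h') = h⁻¹ * h' := by group
  rw [h1]
  refine (C.len_mul _ _).trans ?_
  have h3 := C.u_fellow (x⁻¹ * h) (x⁻¹ * h') s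
  rw [h2] at h3
  have := h0 (x⁻¹ * h')
  omega

/-- Filling of cycles by coning along the combing up to time `T`. -/
noncomputable def Comb.fill (x : G) (T : ℕ) : Ch G →ₗ[ℝ] Ch G :=
  (∑ t ∈ Finset.range T, pr (C.E x t) (C.E x (t + 1))) + cone x ∘ₗ push (C.E x 0)

theorem Comb.fill_htpy (x : G) (T : ℕ) (w : Ch G) :
    bd (C.fill x T w) + C.fill x T (bd w) = push (C.E x T) w := by
  have h1 : ∀ T : ℕ, bd ((∑ t ∈ Finset.range T, pr (C.E x t) (C.E x (t + 1))) w) +
      (∑ t ∈ Finset.range T, pr (C.E x t) (C.E x (t + 1))) (bd w) =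
      push (C.E x T) w - push (C.E x 0) w := by
    intro T
    induction T with
    | zero => simp
    | succ T ih =>
      rw [Finset.sum_range_succ, LinearMap.add_apply, LinearMap.add_apply, map_add]
      have := pr_htpy (C.E x T) (C.E x (T + 1)) w
      calc _ = (bd ((∑ t ∈ Finset.range T, pr (C.E x t) (C.E x (t + 1))) w) +
            (∑ t ∈ Finset.range T, pr (C.E x t) (C.E x (t + 1))) (bd w)) +
            (bd (pr (C.E x T) (C.E x (T + 1)) w) + pr (C.E x T) (C.E x (T + 1)) (bd w)) := by abel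
        _ = _ := by rw [ih, this]; abel
  have h2 := h1 T
  unfold Comb.fill
  rw [LinearMap.add_apply, LinearMap.add_apply, map_add, LinearMap.comp_apply,
    LinearMap.comp_apply, bd_cone, push_bd]
  calc _ = (bd ((∑ t ∈ Finset.range T, pr (C.E x t) (C.E x (t + 1))) w) +
      (∑ t ∈ Finset.range T, pr (C.E x t) (C.E x (t + 1))) (bd w)) + push (C.E x 0) w := by abel
    _ = _ := by rw [h2]; abel

theorem Comb.push_fill (g x : G) (T : ℕ) (w : Ch G) :
    push (g * ·) (C.fill x T w) = C.fill (g * x) T (push (g * ·) w) := by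
  unfold Comb.fill
  rw [LinearMap.add_apply, LinearMap.add_apply, map_add, LinearMap.comp_apply,
    LinearMap.comp_apply, push_cone, push_push, push_push]
  congr 1
  · rw [LinearMap.sum_apply, LinearMap.sum_apply, map_sum]
    refine Finset.sum_congr rfl fun t _ => ?_
    exact push_pr (g * ·) _ _ _ _ (fun h => C.E_equiv g x t h) (fun h => C.E_equiv g x (t + 1) h) w
  · have h1 : (fun h : G => g * h) ∘ C.E x 0 = C.E (g * x) 0 ∘ (fun h : G => g * h) := by
      ext h
      simp only [Function.comp_apply, C.E_zero]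
    rw [h1]

theorem Comb.nrm_fill_sg (x : G) (T : ℕ) (m : List G) :
    nrm (C.fill x T (sg m)) ≤ T * m.length + 1 := by
  unfold Comb.fill
  rw [LinearMap.add_apply, LinearMap.comp_apply, LinearMap.sum_apply]
  refine (nrm_add_le _ _).trans (add_le_add ?_ ?_)
  · refine (nrm_sum_le _ _).trans ?_
    refine (Finset.sum_le_sum (fun t _ => nrm_pr_sg_le _ _ m)).trans ?_
    simp
  · rw [push_sg, cone_sg, nrm_sg]

/-- The lists in the filling of a small list. -/
theorem Comb.fill_sg_mem (x : G) (T : ℕ) (m : List G) (R : ℕ) (hm : C.Small R m) :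
    C.fill x T (sg m) ∈ Finsupp.supported ℝ ℝ
      {m' : List G | m'.length = m.length + 1 ∧ C.Small (C.K * R + C.K) m' ∧
        ∀ y ∈ m', C.len (x⁻¹ * y) ≤ C.K * T} := by
  unfold Comb.fill
  rw [LinearMap.add_apply, LinearMap.comp_apply, LinearMap.sum_apply]
  refine Submodule.add_mem _ (Submodule.sum_mem _ fun t ht => ?_) ?_
  · rw [Finset.mem_range] at ht
    have h1 := pr_sg_mem (C.E x t) (C.E x (t + 1)) m
    refine Finsupp.supported_mono ?_ h1
    rintro m' ⟨h2, h3⟩
    have h4 : ∀ y ∈ m', ∃ s, (s = t ∨ s = t + 1) ∧ ∃ h ∈ m, y = C.E x s h := by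
      intro y hy
      have := h3 hy
      rw [List.mem_append, List.mem_map, List.mem_map] at this
      rcases this with ⟨h, hh, rfl⟩ | ⟨h, hh, rfl⟩
      · exact ⟨t, Or.inl rfl, h, hh, rfl⟩
      · exact ⟨t + 1, Or.inr rfl, h, hh, rfl⟩
    refine ⟨h2, ?_, ?_⟩
    · intro y hy y' hy'
      obtain ⟨s, hs, h, hh, rfl⟩ := h4 y hy
      obtain ⟨s', hs', h', hh', rfl⟩ := h4 y' hy'
      refine (C.len_E_E x t s s' hs hs' h h').trans ?_
      have := hm h hh h' hh'
      have := Nat.mul_le_mul_left C.K this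
      omega
    · intro y hy
      obtain ⟨s, hs, h, hh, rfl⟩ := h4 y hy
      refine (C.len_E_le x s h).trans (Nat.mul_le_mul_left _ ?_)
      omega
  · rw [push_sg, cone_sg]
    refine sg_mem_supported ⟨by simp, ?_, ?_⟩
    · intro y hy y' hy'
      have h5 : ∀ y ∈ x :: m.map (C.E x 0), y = x := by
        intro y hy
        rw [List.mem_cons, List.mem_map] at hy
        rcases hy with rfl | ⟨h, _, rfl⟩
        · rfl
        · exact C.E_zero x h
      rw [h5 y hy, h5 y' hy', inv_mul_cancel, C.len_one]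
      omega
    · intro y hy
      rw [List.mem_cons, List.mem_map] at hy
      rcases hy with rfl | ⟨h, _, rfl⟩
      · rw [inv_mul_cancel, C.len_one]; omega
      · rw [C.E_zero, inv_mul_cancel, C.len_one]; omega

/-- Some bound for the diameter exists. -/
theorem Comb.exists_small (l : List G) : ∃ d, C.Small d l := by
  classical
  refine ⟨(l.toFinset ×ˢ l.toFinset).sup fun pq => C.len (pq.1⁻¹ * pq.2), ?_⟩
  intro p hp q hq
  have : (p, q) ∈ l.toFinset ×ˢ l.toFinset := by
    rw [Finset.mem_product]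
    exact ⟨List.mem_toFinset.mpr hp, List.mem_toFinset.mpr hq⟩
  exact Finset.le_sup (f := fun pq : G × G => C.len (pq.1⁻¹ * pq.2)) this

/-- The diameter. -/
noncomputable def Comb.dm (l : List G) : ℕ := sInf {d | C.Small d l}

theorem Comb.small_dm (l : List G) : C.Small (C.dm l) l :=
  Nat.sInf_mem (s := {d | C.Small d l}) (C.exists_small l)

theorem Comb.dm_le {l : List G} {d : ℕ} (h : C.Small d l) : C.dm l ≤ d :=
  Nat.sInf_le h

theorem Comb.small_map (g : G) (l : List G) (d : ℕ) :
    C.Small d (l.map (g * ·)) ↔ C.Small d l := by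
  unfold Comb.Small
  simp only [List.mem_map, forall_exists_index, and_imp, forall_apply_eq_imp_iff₂]
  refine forall₂_congr fun p _ => forall₂_congr fun q _ => ?_
  rw [mul_inv_rev, mul_assoc, inv_mul_cancel_left]

theorem Comb.dm_map (g : G) (l : List G) : C.dm (l.map (g * ·)) = C.dm l := by
  unfold Comb.dm
  congr 1
  ext d
  exact C.small_map g l d

theorem Comb.Small.sub {C : Comb G} {d : ℕ} {l m : List G} (h : C.Small d l) (hm : m ⊆ l) :
    C.Small d m :=
  fun p hp q hq => h p (hm hp) q (hm hq)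

end Fill

/-! ### the stages -/

/-- An efficient operator in dimension `k` (lists with `k + 1` entries). -/
structure Stage {G : Type} [Group G] (C : Comb G) (k : ℕ) where
  S : Ch G →ₗ[ℝ] Ch G
  H : Ch G →ₗ[ℝ] Ch G
  R : ℕ
  A : ℕ
  B : ℕ
  equivS : ∀ (g : G) (l : List G), S (sg (l.map (g * ·))) = push (g * ·) (S (sg l))
  equivH : ∀ (g : G) (l : List G), H (sg (l.map (g * ·))) = push (g * ·) (H (sg l))
  degH : ∀ l : List G, l.length = k + 1 → H (sg l) ∈ Deg (G := G) (k + 2)
  cyc : ∀ v ∈ Deg (G := G) (k + 1), bd v = 0 → bd (S v) = 0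
  hom : ∀ v ∈ Deg (G := G) (k + 1), bd v = 0 → S v - v = bd (H v)
  supp : ∀ (l : List G) (d : ℕ), l.length = k + 1 → C.Small d l →
    S (sg l) ∈ Finsupp.supported ℝ ℝ {m : List G | m.length = k + 1 ∧ C.Small R m ∧
      ∀ x ∈ l, ∀ y ∈ m, C.len (x⁻¹ * y) ≤ A * (1 + d)}
  norm : ∀ (l : List G) (d : ℕ), l.length = k + 1 → C.Small d l →
    nrm (S (sg l)) ≤ B * (1 + d) ^ k

/-- Dimension zero. -/
noncomputable def Stage.zero {G : Type} [Group G] (C : Comb G) : Stage C 0 where
  S := LinearMap.id
  H := 0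
  R := 0
  A := 1
  B := 1
  equivS g l := by rw [LinearMap.id_apply, LinearMap.id_apply, push_sg]
  equivH g l := by rw [LinearMap.zero_apply, LinearMap.zero_apply, map_zero]
  degH l _ := Submodule.zero_mem _
  cyc v _ h := h
  hom v _ _ := by rw [LinearMap.id_apply, LinearMap.zero_apply, map_zero, sub_self]
  supp l d hl hs := by
    match l, hl with
    | [x], _ =>
      refine sg_mem_supported ⟨rfl, ?_, ?_⟩
      · intro p hp q hq
        rw [List.mem_singleton] at hp hq
        rw [hp, hq, inv_mul_cancel, C.len_one]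
      · intro p hp q hq
        rw [List.mem_singleton] at hp hq
        rw [hp, hq, inv_mul_cancel, C.len_one]
        omega
  norm l d _ _ := by
    rw [LinearMap.id_apply, nrm_sg]
    simp

section Step

variable {G : Type} [Group G] {C : Comb G} {k : ℕ} (st : Stage C k)

/-- The time used to fill. -/
noncomputable def Stage.T (l : List G) : ℕ := C.c * (1 + (st.A + 1) * (1 + C.dm l))

/-- The next operator. -/
noncomputable def Stage.nextSL : List G → Ch G
  | [] => 0
  | x :: l => C.fill x (st.T (x :: l)) (st.S (bd (sg (x :: l))))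

noncomputable def Stage.nextS : Ch G →ₗ[ℝ] Ch G := Finsupp.linearCombination ℝ st.nextSL

theorem Stage.nextS_sg (l : List G) : st.nextS (sg l) = st.nextSL l := by
  simp [Stage.nextS, sg]

noncomputable def Stage.nextHL : List G → Ch G
  | [] => 0
  | x :: l => cone x (st.nextSL (x :: l) - sg (x :: l) - st.H (bd (sg (x :: l))))

noncomputable def Stage.nextH : Ch G →ₗ[ℝ] Ch G := Finsupp.linearCombination ℝ st.nextHL

theorem Stage.nextH_sg (l : List G) : st.nextH (sg l) = st.nextHL l := by
  simp [Stage.nextH, sg]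

theorem Stage.equivS' (g : G) (w : Ch G) : st.S (push (g * ·) w) = push (g * ·) (st.S w) := by
  have : st.S ∘ₗ push (g * ·) = push (g * ·) ∘ₗ st.S := by
    apply ext_sg
    intro l
    rw [LinearMap.comp_apply, LinearMap.comp_apply, push_sg]
    exact st.equivS g l
  exact LinearMap.congr_fun this w

theorem Stage.equivH' (g : G) (w : Ch G) : st.H (push (g * ·) w) = push (g * ·) (st.H w) := by
  have : st.H ∘ₗ push (g * ·) = push (g * ·) ∘ₗ st.H := by
    apply ext_sg
    intro l
    rw [LinearMap.comp_apply, LinearMap.comp_apply, push_sg]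
    exact st.equivH g l
  exact LinearMap.congr_fun this w

/-- The support of `S` of the boundary. -/
theorem Stage.supp_bd (l : List G) (d : ℕ) (hl : l.length = k + 2) (hs : C.Small d l) :
    st.S (bd (sg l)) ∈ Finsupp.supported ℝ ℝ {m : List G | m.length = k + 1 ∧ C.Small st.R m ∧
      ∀ x ∈ l, ∀ y ∈ m, C.len (x⁻¹ * y) ≤ (st.A + 1) * (1 + d)} := by
  have h1 : bd (sg l) ∈ Finsupp.supported ℝ ℝ {m : List G | m.length = k + 1 ∧ m ⊆ l} := by
    have h2 := bd_sg_mem_sub l
    have h3 := bd_sg_mem_deg (n := k + 1) hl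
    unfold Deg at h3
    rw [Finsupp.mem_supported] at h2 h3 ⊢
    exact fun m hm => ⟨h3 hm, h2 hm⟩
  refine map_mem_of_sg st.S ?_ h1
  rintro m ⟨hm1, hm2⟩
  refine Finsupp.supported_mono ?_ (st.supp m d hm1 (hs.sub hm2))
  rintro m' ⟨h4, h5, h6⟩
  refine ⟨h4, h5, ?_⟩
  intro x hx y hy
  -- choose a vertex of m
  obtain ⟨x', hx'⟩ : ∃ x', x' ∈ m := by
    match m, hm1 with
    | x' :: _, _ => exact ⟨x', by simp⟩
  have h7 := h6 x' hx' y hy
  have h8 := hs x hx x' (hm2 hx')
  have h9 : x⁻¹ * y = (x⁻¹ * x') * (x'⁻¹ * y) := by group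
  rw [h9]
  refine (C.len_mul _ _).trans ?_
  nlinarith

theorem Stage.push_end (x : G) (l : List G) (hl : (x :: l).length = k + 2) :
    push (C.E x (st.T (x :: l))) (st.S (bd (sg (x :: l)))) = st.S (bd (sg (x :: l))) := by
  have h1 := st.supp_bd (x :: l) (C.dm (x :: l)) hl (C.small_dm _)
  refine eq_of_sg (push (C.E x (st.T (x :: l)))) LinearMap.id ?_ h1
  rintro m ⟨_, _, h2⟩
  rw [push_sg, LinearMap.id_apply]
  congr 1
  conv_rhs => rw [← List.map_id m]
  apply List.map_congr_left
  intro y hy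
  rw [id]
  apply C.E_end
  unfold Stage.T
  exact Nat.mul_le_mul_left _ (by have := h2 x (by simp) y hy; omega)

/-- The new operator lifts the old one. -/
theorem Stage.bd_nextS_sg (l : List G) (hl : l.length = k + 2) :
    bd (st.nextS (sg l)) = st.S (bd (sg l)) := by
  match l, hl with
  | x :: l, hl =>
    rw [st.nextS_sg]
    show bd (C.fill x (st.T (x :: l)) (st.S (bd (sg (x :: l))))) = _
    have h1 := C.fill_htpy x (st.T (x :: l)) (st.S (bd (sg (x :: l))))
    rw [st.push_end x l hl, st.cyc _ (bd_sg_mem_deg hl) (bd_bd _), map_zero, add_zero] at h1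
    exact h1

theorem Stage.nextH_htpy_sg (l : List G) (hl : l.length = k + 2) :
    st.nextS (sg l) - sg l = bd (st.nextH (sg l)) + st.H (bd (sg l)) := by
  have h0 := st.bd_nextS_sg l hl
  match l, hl with
  | x :: l, hl =>
    have h1 : st.nextH (sg (x :: l)) =
        cone x (st.nextS (sg (x :: l)) - sg (x :: l) - st.H (bd (sg (x :: l)))) := by
      rw [st.nextH_sg, st.nextS_sg]; rfl
    have h2 : bd (st.nextS (sg (x :: l)) - sg (x :: l) - st.H (bd (sg (x :: l)))) = 0 := by
      rw [map_sub, map_sub, h0, ← st.hom _ (bd_sg_mem_deg hl) (bd_bd _)]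
      abel
    rw [h1, bd_cone, h2, map_zero]
    abel

theorem Stage.equiv_nextS (g : G) (l : List G) :
    st.nextS (sg (l.map (g * ·))) = push (g * ·) (st.nextS (sg l)) := by
  rw [st.nextS_sg, st.nextS_sg]
  match l with
  | [] => show (0 : Ch G) = push _ 0; rw [map_zero]
  | x :: l =>
    show C.fill (g * x) (st.T ((x :: l).map (g * ·))) (st.S (bd (sg ((x :: l).map (g * ·))))) = _
    rw [← push_sg, ← push_bd, st.equivS', ← C.push_fill]
    unfold Stage.T
    rw [C.dm_map]
    rfl

theorem Stage.equiv_nextH (g : G) (l : List G) :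
    st.nextH (sg (l.map (g * ·))) = push (g * ·) (st.nextH (sg l)) := by
  have hS := st.equiv_nextS g l
  rw [st.nextS_sg, st.nextS_sg] at hS
  rw [st.nextH_sg, st.nextH_sg]
  match l with
  | [] => show (0 : Ch G) = push _ 0; rw [map_zero]
  | x :: l =>
    show cone (g * x) (st.nextSL ((x :: l).map (g * ·)) - sg ((x :: l).map (g * ·)) -
      st.H (bd (sg ((x :: l).map (g * ·))))) = push (g * ·)
        (cone x (st.nextSL (x :: l) - sg (x :: l) - st.H (bd (sg (x :: l)))))
    rw [push_cone, hS, ← push_sg, ← push_bd, st.equivH', ← map_sub, ← map_sub]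

theorem Stage.supp_nextS (l : List G) (d : ℕ) (hl : l.length = k + 2) (hs : C.Small d l) :
    st.nextS (sg l) ∈ Finsupp.supported ℝ ℝ {m : List G | m.length = k + 2 ∧
      C.Small (C.K * st.R + C.K) m ∧
      ∀ x ∈ l, ∀ y ∈ m, C.len (x⁻¹ * y) ≤ (C.K * (C.c * (st.A + 2)) + 1) * (1 + d)} := by
  match l, hl with
  | x :: l, hl =>
    rw [st.nextS_sg]
    show C.fill x (st.T (x :: l)) (st.S (bd (sg (x :: l)))) ∈ _
    refine map_mem_of_sg (C.fill x (st.T (x :: l))) ?_ (st.supp_bd (x :: l) d hl hs)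
    rintro m ⟨h1, h2, h3⟩
    refine Finsupp.supported_mono ?_ (C.fill_sg_mem x (st.T (x :: l)) m st.R h2)
    rintro m' ⟨h4, h5, h6⟩
    refine ⟨by rw [h4, h1], h5, ?_⟩
    intro z hz y hy
    have h7 := h6 y hy
    have h8 := hs z hz x (by simp)
    have h9 : z⁻¹ * y = (z⁻¹ * x) * (x⁻¹ * y) := by group
    rw [h9]
    refine (C.len_mul _ _).trans ?_
    have h10 : st.T (x :: l) ≤ C.c * ((st.A + 2) * (1 + d)) := by
      unfold Stage.T
      apply Nat.mul_le_mul_left
      have := C.dm_le hs
      nlinarith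
    have h11 : C.K * st.T (x :: l) ≤ C.K * (C.c * ((st.A + 2) * (1 + d))) :=
      Nat.mul_le_mul_left _ h10
    have h12 : C.K * (C.c * ((st.A + 2) * (1 + d))) = C.K * (C.c * (st.A + 2)) * (1 + d) := by ring
    rw [add_mul, one_mul, ← h12]
    omega

theorem Stage.norm_nextS (l : List G) (d : ℕ) (hl : l.length = k + 2) (hs : C.Small d l) :
    nrm (st.nextS (sg l)) ≤
      (((C.c * (st.A + 2) * (k + 1) + 1) * (st.B * (k + 2)) : ℕ) : ℝ) * (1 + d) ^ (k + 1) := by
  match l, hl with
  | x :: l, hl =>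
    rw [st.nextS_sg]
    show nrm (C.fill x (st.T (x :: l)) (st.S (bd (sg (x :: l))))) ≤ _
    have h1 := st.supp_bd (x :: l) d hl hs
    rw [Finsupp.mem_supported] at h1
    have h2 : nrm (C.fill x (st.T (x :: l)) (st.S (bd (sg (x :: l))))) ≤
        ((st.T (x :: l) : ℝ) * (k + 1) + 1) * nrm (st.S (bd (sg (x :: l)))) := by
      refine nrm_map_le _ _ ?_
      intro m hm
      have h3 := C.nrm_fill_sg x (st.T (x :: l)) m
      have h4 : m.length = k + 1 := (h1 hm).1
      rw [h4] at h3
      push_cast at h3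
      exact h3
    have h5 : nrm (st.S (bd (sg (x :: l)))) ≤ (st.B * (1 + d) ^ k : ℝ) * (k + 2) := by
      have h6 : nrm (st.S (bd (sg (x :: l)))) ≤
          (st.B * (1 + d) ^ k : ℝ) * nrm (bd (sg (x :: l))) := by
        refine nrm_map_le _ _ ?_
        intro m hm
        have h7 := bd_sg_mem_sub (x :: l)
        have h8 := bd_sg_mem_deg (n := k + 1) hl
        unfold Deg at h8
        rw [Finsupp.mem_supported] at h7 h8
        exact st.norm m d (h8 hm) (hs.sub (h7 hm))
      refine h6.trans (mul_le_mul_of_nonneg_left ?_ (by positivity))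
      have h9 := nrm_bd_sg_le (x :: l)
      rw [hl] at h9
      push_cast at h9
      exact h9
    have h10 : (st.T (x :: l) : ℝ) ≤ C.c * ((st.A + 2) * (1 + d)) := by
      have : st.T (x :: l) ≤ C.c * ((st.A + 2) * (1 + d)) := by
        unfold Stage.T
        apply Nat.mul_le_mul_left
        have := C.dm_le hs
        nlinarith
      exact_mod_cast this
    have h11 : (st.T (x :: l) : ℝ) * (k + 1) + 1 ≤
        (C.c * (st.A + 2) * (k + 1) + 1) * (1 + d) := by
      have h12 : (st.T (x :: l) : ℝ) * (k + 1) ≤ C.c * ((st.A + 2) * (1 + d)) * (k + 1) :=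
        mul_le_mul_of_nonneg_right h10 (by positivity)
      have h13 : (0 : ℝ) ≤ d := Nat.cast_nonneg d
      nlinarith
    calc nrm (C.fill x (st.T (x :: l)) (st.S (bd (sg (x :: l)))))
        ≤ ((st.T (x :: l) : ℝ) * (k + 1) + 1) * nrm (st.S (bd (sg (x :: l)))) := h2
      _ ≤ ((C.c * (st.A + 2) * (k + 1) + 1) * (1 + d)) * ((st.B * (1 + d) ^ k : ℝ) * (k + 2)) :=
          mul_le_mul h11 h5 (nrm_nonneg _) (by positivity)
      _ = _ := by push_cast; ring

/-- The next stage. -/
noncomputable def Stage.next : Stage C (k + 1) where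
  S := st.nextS
  H := st.nextH
  R := C.K * st.R + C.K
  A := C.K * (C.c * (st.A + 2)) + 1
  B := (C.c * (st.A + 2) * (k + 1) + 1) * (st.B * (k + 2))
  equivS := st.equiv_nextS
  equivH := st.equiv_nextH
  degH l hl := by
    match l, hl with
    | x :: l, hl =>
      rw [st.nextH_sg]
      show cone x (st.nextSL (x :: l) - sg (x :: l) - st.H (bd (sg (x :: l)))) ∈ _
      refine cone_mem_deg x (Submodule.sub_mem _ (Submodule.sub_mem _ ?_ (sg_mem_deg hl)) ?_)
      · rw [← st.nextS_sg]
        have h1 := st.supp_nextS (x :: l) (C.dm (x :: l)) hl (C.small_dm _)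
        exact Finsupp.supported_mono (fun m hm => hm.1) h1
      · exact map_mem_of_sg st.H (fun m hm => st.degH m hm) (bd_sg_mem_deg hl)
  cyc v hv h0 := by
    have h1 : bd (st.nextS v) = st.S (bd v) :=
      eq_of_sg (bd ∘ₗ st.nextS) (st.S ∘ₗ bd) (fun l hl => st.bd_nextS_sg l hl) hv
    rw [h1, h0, map_zero]
  hom v hv h0 := by
    have h1 : (st.nextS - (LinearMap.id : Ch G →ₗ[ℝ] Ch G)) v = (bd ∘ₗ st.nextH + st.H ∘ₗ bd) v :=
      eq_of_sg _ _ (fun l hl => by
        simp only [LinearMap.sub_apply, LinearMap.id_apply, LinearMap.add_apply,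
          LinearMap.comp_apply]
        exact st.nextH_htpy_sg l hl) hv
    simp only [LinearMap.sub_apply, LinearMap.id_apply, LinearMap.add_apply,
          LinearMap.comp_apply] at h1
    rw [h0, map_zero, add_zero] at h1
    exact h1
  supp := st.supp_nextS
  norm := st.norm_nextS

end Step

/-- Efficient filling: there is an equivariant chain map on 3-simplices, homotopic to the identity,
with values in simplices of bounded diameter and with norm cubic in the diameter. -/
theorem exists_eff {G : Type} [Group G] (C : Comb G) :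
    ∃ (S H₄ H₃ : Ch G →ₗ[ℝ] Ch G) (R A : ℕ),
      (∀ (g : G) (l : List G), H₃ (sg (l.map (g * ·))) = push (g * ·) (H₃ (sg l))) ∧
      (∀ l : List G, l.length = 4 → H₄ (sg l) ∈ Deg (G := G) 5 ∧
        S (sg l) - sg l = bd (H₄ (sg l)) + H₃ (bd (sg l))) ∧
      (∀ l : List G, l.length = 4 → ∀ m ∈ (S (sg l)).support, m.length = 4 ∧ C.Small R m) ∧
      (∀ (l : List G) (d : ℕ), l.length = 4 → C.Small d l → nrm (S (sg l)) ≤ A * (1 + d) ^ 3) := by
  set st := (Stage.zero C).next.next with hst
  refine ⟨st.nextS, st.nextH, st.H, st.next.R, st.next.B, st.equivH, ?_, ?_, ?_⟩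
  · intro l hl
    exact ⟨st.next.degH l hl, st.nextH_htpy_sg l hl⟩
  · intro l hl m hm
    have h1 := st.next.supp l (C.dm l) hl (C.small_dm l)
    rw [Finsupp.mem_supported] at h1
    have h2 := h1 hm
    exact ⟨h2.1, h2.2.1⟩
  · intro l d hl hs
    exact st.next.norm l d hl hs

end Pool.Agent.AutDim3
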