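import Pool.Agent.AutDim3.Nilp

set_option autoImplicit false

/-!
Finitely generated nilpotent groups without Heisenberg subgroup are virtually abelian.
-/

namespace Pool.Agent.AutDim3

open commutatorElement

/-- Two elements with central commutator of infinite order generate a Heisenberg group. -/
theorem heis_of_central {N : Type} [Group N] (a b : N) (hzc : ⁅a, b⁆ ∈ Subgroup.center N)
    (hinf : ∀ n : ℤ, ⁅a, b⁆ ^ n = 1 → n = 0) :
    ∃ φ : Heis →* N, Function.Injective φ := by
  set z : N := ⁅a, b⁆ with hz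
  have hzz : ∀ g : N, Commute z g := by
    intro g
    rw [Subgroup.mem_center_iff] at hzc
    exact (hzc g).symm
  have hzp : ∀ (n : ℤ) (g : N), Commute (z ^ n) g := fun n g => (hzz g).zpow_left n
  have hz0 : ∀ n : ℤ, z ^ n = 1 → n = 0 := by
    intro n h
    exact hinf n h
  have hconj : a * b * a⁻¹ = z * b := by
    rw [hz, commutatorElement_def]
    group
  have h1 : ∀ m : ℤ, a * b ^ m * a⁻¹ = z ^ m * b ^ m := by
    intro m
    rw [← conj_zpow, hconj, (hzz b).mul_zpow]
  have h2 : ∀ m : ℤ, (b ^ m)⁻¹ * a * b ^ m = z ^ m * a := by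
    intro m
    have h3 : a * b ^ m = z ^ m * b ^ m * a := by
      rw [← h1 m]
      group
    rw [mul_assoc, h3, (hzp m (b ^ m)).eq]
    group
  have key : ∀ x m : ℤ, a ^ x * b ^ m = b ^ m * a ^ x * z ^ (x * m) := by
    intro x m
    have h3 : ((b ^ m)⁻¹ * a * (b ^ m)⁻¹⁻¹) ^ x = (b ^ m)⁻¹ * a ^ x * (b ^ m)⁻¹⁻¹ := conj_zpow
    rw [inv_inv, h2, (hzp m a).mul_zpow, ← zpow_mul] at h3
    have h4 : a ^ x * b ^ m = b ^ m * ((b ^ m)⁻¹ * a ^ x * b ^ m) := by group
    rw [h4, ← h3, (hzp (m * x) (a ^ x)).eq, mul_comm m x, mul_assoc]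
  let φ : Heis →* N :=
    { toFun := fun g => b ^ g.y * a ^ g.x * z ^ g.z
      map_one' := by
        simp
      map_mul' := by
        intro g h
        show b ^ (g.y + h.y) * a ^ (g.x + h.x) * z ^ (g.z + h.z + g.x * h.y) =
          b ^ g.y * a ^ g.x * z ^ g.z * (b ^ h.y * a ^ h.x * z ^ h.z)
        have e1 : b ^ g.y * a ^ g.x * z ^ g.z * (b ^ h.y * a ^ h.x * z ^ h.z)
            = b ^ g.y * (a ^ g.x * b ^ h.y) * a ^ h.x * z ^ h.z * z ^ g.z := by
          have h5 : b ^ g.y * a ^ g.x * z ^ g.z * (b ^ h.y * a ^ h.x * z ^ h.z)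
            = b ^ g.y * a ^ g.x * (z ^ g.z * (b ^ h.y * a ^ h.x * z ^ h.z)) := by
            simp only [mul_assoc]
          rw [h5, (hzp g.z _).eq]
          simp only [mul_assoc]
        have e2 : b ^ g.y * (b ^ h.y * a ^ g.x * z ^ (g.x * h.y)) * a ^ h.x * z ^ h.z * z ^ g.z
            = b ^ g.y * b ^ h.y * a ^ g.x * (z ^ (g.x * h.y) * a ^ h.x) * z ^ h.z * z ^ g.z := by
          simp only [mul_assoc]
        rw [e1, key, e2, (hzp _ (a ^ h.x)).eq, zpow_add b, zpow_add a, zpow_add z, zpow_add z]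
        have e3 : z ^ g.z * z ^ h.z * z ^ (g.x * h.y) = z ^ (g.x * h.y) * z ^ h.z * z ^ g.z := by
          rw [← zpow_add, ← zpow_add, ← zpow_add, ← zpow_add]
          congr 1
          ring
        rw [e3]
        simp only [mul_assoc] }
  refine ⟨φ, ?_⟩
  rw [injective_iff_map_eq_one]
  intro g hg
  have hg' : b ^ g.y * a ^ g.x * z ^ g.z = 1 := hg
  have hc : b ^ g.y * a ^ g.x = z ^ (-g.z) := by
    rw [zpow_neg]
    exact eq_inv_of_mul_eq_one_left hg'
  have hy : g.y = 0 := by
    apply hz0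
    have h5 : a * (b ^ g.y * a ^ g.x) = (b ^ g.y * a ^ g.x) * a := by
      rw [hc]
      exact (hzp _ a).eq.symm
    have h6 : a * b ^ g.y = z ^ g.y * b ^ g.y * a := by
      rw [← h1 g.y]
      group
    have h7 : z ^ g.y * (b ^ g.y * a * a ^ g.x) = b ^ g.y * a * a ^ g.x := by
      calc z ^ g.y * (b ^ g.y * a * a ^ g.x) = z ^ g.y * b ^ g.y * a * a ^ g.x := by
            simp only [mul_assoc]
        _ = a * (b ^ g.y * a ^ g.x) := by rw [← h6]; simp only [mul_assoc]
        _ = b ^ g.y * (a ^ g.x * a) := by rw [h5]; simp only [mul_assoc]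
        _ = b ^ g.y * a * a ^ g.x := by
            rw [← zpow_add_one, mul_assoc, ← zpow_one_add, add_comm]
    exact mul_eq_right.1 h7
  have hx : g.x = 0 := by
    apply hz0
    rw [hy, zpow_zero, one_mul] at hc
    have h5 : a ^ g.x * b ^ (1 : ℤ) = b ^ (1 : ℤ) * a ^ g.x := by
      rw [hc]
      exact (hzp _ _).eq
    have h6 := key g.x 1
    rw [h5, mul_one] at h6
    exact (mul_eq_left.1 h6.symm)
  have hzz0 : g.z = 0 := by
    apply hz0
    rw [hy, hx, zpow_zero, zpow_zero, one_mul, one_mul] at hg'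
    exact hg'
  exact Heis.ext hx hy hzz0

/-- Two elements whose commutator commutes with both and has infinite order generate a Heisenberg
group. -/
theorem heis_of_commute {N : Type} [Group N] (a b : N) (ha : ⁅a, b⁆ * a = a * ⁅a, b⁆)
    (hb : ⁅a, b⁆ * b = b * ⁅a, b⁆) (hinf : ∀ n : ℤ, ⁅a, b⁆ ^ n = 1 → n = 0) :
    ∃ φ : Heis →* N, Function.Injective φ := by
  set M : Subgroup N := Subgroup.closure {a, b} with hM
  have hma : a ∈ M := Subgroup.subset_closure (by simp)
  have hmb : b ∈ M := Subgroup.subset_closure (by simp)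
  have hcent : ∀ g ∈ M, g * ⁅a, b⁆ = ⁅a, b⁆ * g := by
    intro g hg
    have h1 : M ≤ Subgroup.centralizer {⁅a, b⁆} := by
      rw [hM, Subgroup.closure_le]
      intro x hx
      simp only [Set.mem_insert_iff, Set.mem_singleton_iff] at hx
      rw [SetLike.mem_coe, Subgroup.mem_centralizer_singleton_iff]
      rcases hx with rfl | rfl
      · exact ha.symm
      · exact hb.symm
    exact (Subgroup.mem_centralizer_singleton_iff.mp (h1 hg))
  have hcoe : ((⁅(⟨a, hma⟩ : M), ⟨b, hmb⟩⁆ : M) : N) = ⁅a, b⁆ := rfl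
  obtain ⟨φ, hφ⟩ := heis_of_central (N := M) ⟨a, hma⟩ ⟨b, hmb⟩
    (by
      rw [Subgroup.mem_center_iff]
      intro g
      apply Subtype.ext
      rw [Subgroup.coe_mul, Subgroup.coe_mul, hcoe]
      exact hcent g.1 g.2)
    (by
      intro n hn
      apply hinf n
      have := congrArg (Subtype.val) hn
      rw [Subgroup.coe_zpow, hcoe] at this
      exact this)
  exact ⟨M.subtype.comp φ, by
    rw [MonoidHom.coe_comp]
    exact Subtype.val_injective.comp hφ⟩

/-- An element has infinite order if no integer power is trivial. -/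
theorem finOrder_or {N : Type} [Group N] (g : N) :
    (∃ m : ℕ, 0 < m ∧ g ^ m = 1) ∨ ∀ n : ℤ, g ^ n = 1 → n = 0 := by
  by_cases h : IsOfFinOrder g
  · left
    exact isOfFinOrder_iff_pow_eq_one.mp h
  · right
    intro n hn
    by_contra hne
    exact h (isOfFinOrder_iff_zpow_eq_one.2 ⟨n, hne, hn⟩)

/-- Central commutators are multiplicative in the first variable. -/
theorem comm_pow_left {N : Type} [Group N] (a b : N) (h : ⁅a, b⁆ ∈ Subgroup.center N) (k : ℕ) :
    ⁅a ^ k, b⁆ = ⁅a, b⁆ ^ k := by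
  have hc : ∀ g : N, g * ⁅a, b⁆ = ⁅a, b⁆ * g := fun g => Subgroup.mem_center_iff.mp h g
  have h1 : ∀ k : ℕ, a ^ k * b * (a ^ k)⁻¹ = ⁅a, b⁆ ^ k * b := by
    intro k
    induction k with
    | zero => simp
    | succ k ih =>
      have e1 : a ^ (k + 1) * b * (a ^ (k + 1))⁻¹ = a * (a ^ k * b * (a ^ k)⁻¹) * a⁻¹ := by
        rw [pow_succ']; group
      have e2 : a * b * a⁻¹ = ⁅a, b⁆ * b := by rw [commutatorElement_def]; group
      have e3 : Commute a (⁅a, b⁆ ^ k) := (show Commute a ⁅a, b⁆ from hc a).pow_right k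
      rw [e1, ih]
      calc a * (⁅a, b⁆ ^ k * b) * a⁻¹ = (a * ⁅a, b⁆ ^ k) * b * a⁻¹ := by group
        _ = ⁅a, b⁆ ^ k * (a * b * a⁻¹) := by rw [e3.eq]; group
        _ = _ := by rw [e2, pow_succ]; group
  rw [commutatorElement_def, h1 k]
  group

/-- The Heisenberg group lifts along the quotient by the centre. -/
theorem heis_lift {G : Type} [Group G] (ψ : Heis →* G ⧸ Subgroup.center G)
    (hψ : Function.Injective ψ) : ∃ φ : Heis →* G, Function.Injective φ := by
  obtain ⟨a, ha⟩ := QuotientGroup.mk_surjective (ψ Heis.a)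
  obtain ⟨b, hb⟩ := QuotientGroup.mk_surjective (ψ Heis.b)
  set z : G := ⁅a, b⁆ with hz
  have hzc : ((z : G) : G ⧸ Subgroup.center G) = ψ Heis.c := by
    have e : ⁅Heis.a, Heis.b⁆ = Heis.c := by
      rw [commutatorElement_def]
      ext <;> simp [Heis.a, Heis.b, Heis.c]
    rw [hz, ← e, commutatorElement_def, commutatorElement_def]
    simp only [QuotientGroup.mk_mul, QuotientGroup.mk_inv, map_mul, map_inv, ha, hb]
  -- powers of z are not central
  have hzinf : ∀ n : ℤ, z ^ n ∈ Subgroup.center G → n = 0 := by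
    intro n hn
    have h1 : ψ (Heis.c ^ n) = 1 := by
      rw [map_zpow, ← hzc, ← QuotientGroup.mk_zpow]
      exact (QuotientGroup.eq_one_iff _).mpr hn
    have h2 : Heis.c ^ n = 1 := hψ (by rw [h1, map_one])
    have h3 : ∀ k : ℕ, (Heis.c ^ k).z = k := by
      intro k
      induction k with
      | zero => simp
      | succ k ih =>
        have h4 : (Heis.c ^ k).x = 0 := by
          clear ih
          induction k with
          | zero => simp
          | succ k ih => rw [pow_succ, Heis.mul_x, ih]; simp [Heis.c]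
        rw [pow_succ, Heis.mul_z, ih, h4]
        simp [Heis.c]
    have h5 : Heis.c ^ n.natAbs = 1 := by
      rcases Int.natAbs_eq n with h | h
      · rw [h, zpow_natCast] at h2; exact h2
      · rw [h, zpow_neg, zpow_natCast, inv_eq_one] at h2; exact h2
    have h6 := h3 n.natAbs
    rw [h5, Heis.one_z] at h6
    omega
  have hcz : ∀ g : G, ψ Heis.c * (ψ Heis.a) = ψ Heis.a * ψ Heis.c := by
    intro _
    rw [← map_mul, ← map_mul]
    congr 1
  have hcz' : ψ Heis.c * (ψ Heis.b) = ψ Heis.b * ψ Heis.c := by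
    rw [← map_mul, ← map_mul]
    congr 1
  have hy1 : ⁅a, z⁆ ∈ Subgroup.center G := by
    rw [← QuotientGroup.eq_one_iff, commutatorElement_def]
    simp only [QuotientGroup.mk_mul, QuotientGroup.mk_inv, ha, hzc]
    rw [← hcz 1]
    group
  have hy2 : ⁅b, z⁆ ∈ Subgroup.center G := by
    rw [← QuotientGroup.eq_one_iff, commutatorElement_def]
    simp only [QuotientGroup.mk_mul, QuotientGroup.mk_inv, hb, hzc]
    rw [← hcz']
    group
  rcases finOrder_or ⁅a, z⁆ with ⟨m₁, hm₁, h1⟩ | h1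
  swap
  · exact heis_of_central a z hy1 h1
  rcases finOrder_or ⁅b, z⁆ with ⟨m₂, hm₂, h2⟩ | h2
  swap
  · exact heis_of_central b z hy2 h2
  set m := m₁ * m₂ with hm
  have hmpos : 0 < m := Nat.mul_pos hm₁ hm₂
  have hc1 : ∀ g : G, g * ⁅a, z⁆ = ⁅a, z⁆ * g := fun g => Subgroup.mem_center_iff.mp hy1 g
  -- conjugation of z by a
  have haz : a * z * a⁻¹ = ⁅a, z⁆ * z := by rw [commutatorElement_def]; group
  have haz' : ∀ k : ℕ, a * z ^ k * a⁻¹ = ⁅a, z⁆ ^ k * z ^ k := by
    intro k
    rw [← conj_pow, haz, (show Commute ⁅a, z⁆ z from (hc1 z).symm).mul_pow]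
  have hbz : b * z * b⁻¹ = ⁅b, z⁆ * z := by rw [commutatorElement_def]; group
  have hc2 : ∀ g : G, g * ⁅b, z⁆ = ⁅b, z⁆ * g := fun g => Subgroup.mem_center_iff.mp hy2 g
  have hbz' : ∀ k : ℕ, b * z ^ k * b⁻¹ = ⁅b, z⁆ ^ k * z ^ k := by
    intro k
    rw [← conj_pow, hbz, (show Commute ⁅b, z⁆ z from (hc2 z).symm).mul_pow]
  have h1m : ⁅a, z⁆ ^ m = 1 := by rw [hm, pow_mul, h1, one_pow]
  have h2m : ⁅b, z⁆ ^ m = 1 := by rw [hm, mul_comm, pow_mul, h2, one_pow]
  -- powers of a
  have hpow : ∀ k : ℕ, a ^ k * b * (a ^ k)⁻¹ = ⁅a, z⁆ ^ (k * (k - 1) / 2) * z ^ k * b := by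
    intro k
    induction k with
    | zero => simp
    | succ k ih =>
      have e1 : a ^ (k + 1) * b * (a ^ (k + 1))⁻¹ = a * (a ^ k * b * (a ^ k)⁻¹) * a⁻¹ := by
        rw [pow_succ']; group
      have e2 : a * b * a⁻¹ = z * b := by rw [hz, commutatorElement_def]; group
      have e3 : Commute a (⁅a, z⁆ ^ (k * (k - 1) / 2)) :=
        (show Commute a ⁅a, z⁆ from hc1 a).pow_right _
      have e4 : (k + 1) * (k + 1 - 1) / 2 = k * (k - 1) / 2 + k := by
        rw [Nat.add_sub_cancel]
        rcases k with _ | k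
        · rfl
        · rw [Nat.add_sub_cancel]
          have : (k + 1 + 1) * (k + 1) = (k + 1) * k + 2 * (k + 1) := by ring
          rw [this, Nat.add_mul_div_left _ _ (by norm_num)]
      rw [e1, ih]
      calc a * (⁅a, z⁆ ^ (k * (k - 1) / 2) * z ^ k * b) * a⁻¹
          = (a * ⁅a, z⁆ ^ (k * (k - 1) / 2)) * z ^ k * b * a⁻¹ := by group
        _ = ⁅a, z⁆ ^ (k * (k - 1) / 2) * (a * z ^ k * a⁻¹) * (a * b * a⁻¹) := by
            rw [e3.eq]; group
        _ = ⁅a, z⁆ ^ (k * (k - 1) / 2) * (⁅a, z⁆ ^ k * z ^ k) * (z * b) := by rw [haz' k, e2]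
        _ = _ := by rw [e4, pow_add, pow_succ]; group
  have h3 : ⁅a ^ (2 * m), b⁆ = z ^ (2 * m) := by
    rw [commutatorElement_def, hpow (2 * m)]
    have e : 2 * m * (2 * m - 1) / 2 = m * (2 * m - 1) := by
      rw [mul_assoc, Nat.mul_div_cancel_left _ (by norm_num)]
    rw [e, pow_mul, h1m, one_pow, one_mul, mul_inv_cancel_right]
  have h4 : ∀ g : G, ⁅g, z⁆ ^ m = 1 → (∀ k : ℕ, g * z ^ k * g⁻¹ = ⁅g, z⁆ ^ k * z ^ k) →
      z ^ (2 * m) * g = g * z ^ (2 * m) := by
    intro g hg hk
    have := hk (2 * m)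
    rw [mul_comm 2 m, pow_mul ⁅g, z⁆, hg, one_pow, one_mul] at this
    rw [mul_comm 2 m]
    conv_lhs => rw [← this]
    group
  refine heis_of_commute (a ^ (2 * m)) b ?_ ?_ ?_
  · rw [h3]
    exact ((show Commute (z ^ (2 * m)) a from h4 a h1m haz').pow_right (2 * m)).eq
  · rw [h3]
    exact h4 b h2m hbz'
  · intro n hn
    rw [h3] at hn
    have h5 : z ^ (((2 * m : ℕ) : ℤ) * n) = 1 := by
      rw [zpow_mul, zpow_natCast]; exact hn
    have h6 := hzinf (((2 * m : ℕ) : ℤ) * n) (by rw [h5]; exact Subgroup.one_mem _)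
    rcases mul_eq_zero.mp h6 with h | h
    · exfalso
      push_cast at h
      omega
    · exact h

/-- A finitely generated group with central commutators of finite order has a centre of finite
index. -/
theorem center_index {A : Type} [Group A] [Group.FG A]
    (hc : ∀ x y : A, ⁅x, y⁆ ∈ Subgroup.center A) (hf : ∀ x y : A, ∃ m : ℕ, 0 < m ∧ ⁅x, y⁆ ^ m = 1) :
    (Subgroup.center A).index ≠ 0 := by
  classical
  obtain ⟨S, hS⟩ := (Group.fg_def.mp (inferInstance : Group.FG A))
  let inst : CommGroup (A ⧸ Subgroup.center A) :=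
    { (inferInstance : Group (A ⧸ Subgroup.center A)) with
      mul_comm := by
        intro p q
        induction p using QuotientGroup.induction_on with
        | H x =>
        induction q using QuotientGroup.induction_on with
        | H y =>
        rw [← QuotientGroup.mk_mul, ← QuotientGroup.mk_mul, QuotientGroup.eq]
        have := hc y⁻¹ x⁻¹
        have e : (x * y)⁻¹ * (y * x) = ⁅y⁻¹, x⁻¹⁆ := by rw [commutatorElement_def]; group
        rw [e]
        exact this }
  have htor : IsMulTorsion (A ⧸ Subgroup.center A) := by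
    intro p
    induction p using QuotientGroup.induction_on with
    | H x =>
    choose m hm using hf x
    rw [isOfFinOrder_iff_pow_eq_one]
    refine ⟨∏ s ∈ S, m s, Finset.prod_pos fun s _ => (hm s).1, ?_⟩
    rw [← QuotientGroup.mk_pow, QuotientGroup.eq_one_iff]
    have h1 : ∀ s ∈ S, x ^ (∏ s ∈ S, m s) * s = s * x ^ (∏ s ∈ S, m s) := by
      intro s hs
      have h2 : ⁅x ^ (∏ s ∈ S, m s), s⁆ = 1 := by
        rw [comm_pow_left x s (hc x s)]
        obtain ⟨k, hk⟩ := Finset.dvd_prod_of_mem m hs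
        rw [hk, pow_mul, (hm s).2, one_pow]
      exact commutatorElement_eq_one_iff_mul_comm.mp h2
    rw [Subgroup.mem_center_iff]
    intro g
    have h3 : (⊤ : Subgroup A) ≤ Subgroup.centralizer {x ^ (∏ s ∈ S, m s)} := by
      rw [← hS, Subgroup.closure_le]
      intro s hs
      rw [SetLike.mem_coe, Subgroup.mem_centralizer_singleton_iff]
      exact (h1 s hs).symm
    exact Subgroup.mem_centralizer_singleton_iff.mp (h3 (Subgroup.mem_top g))
  have hfg : @Group.FG (A ⧸ Subgroup.center A) inst.toGroup := by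
    exact QuotientGroup.fg (Subgroup.center A)
  have hfin : Finite (A ⧸ Subgroup.center A) :=
    @CommGroup.finite_of_fg_isMulTorsion (A ⧸ Subgroup.center A) inst hfg htor
  have : (Subgroup.center A).FiniteIndex := Subgroup.finiteIndex_of_finite_quotient
  exact this.index_ne_zero

/-- A finitely generated nilpotent group without Heisenberg subgroup is virtually abelian. -/
theorem virtually_abelian_of_fg (G : Type) [Group G] [Group.IsNilpotent G] (hfg : Group.FG G)
    (hno : ∀ φ : Heis →* G, ¬ Function.Injective φ) :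
    ∃ A : Subgroup G, A.index ≠ 0 ∧ ∀ a ∈ A, ∀ b ∈ A, a * b = b * a := by
  revert hfg hno
  refine Group.nilpotent_center_quotient_ind
    (P := fun (G : Type) [Group G] [Group.IsNilpotent G] => Group.FG G →
      (∀ φ : Heis →* G, ¬ Function.Injective φ) →
      ∃ A : Subgroup G, A.index ≠ 0 ∧ ∀ a ∈ A, ∀ b ∈ A, a * b = b * a) G ?_ ?_
  · intro G _ _ _ _
    exact ⟨⊤, by simp, fun a _ b _ => Subsingleton.elim _ _⟩
  · intro G _ _ ih hfg hno
    obtain ⟨B, hB, hBc⟩ := ih (QuotientGroup.fg (Subgroup.center G)) (fun ψ hψ => by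
      obtain ⟨φ, hφ⟩ := heis_lift ψ hψ
      exact hno φ hφ)
    set A : Subgroup G := B.comap (QuotientGroup.mk' (Subgroup.center G)) with hA
    have hAi : A.index ≠ 0 := by
      rw [hA, Subgroup.index_comap_of_surjective _ (QuotientGroup.mk'_surjective _)]
      exact hB
    have : A.FiniteIndex := ⟨hAi⟩
    have hAfg : Group.FG A := inferInstance
    have hcG : ∀ x y : A, (⁅(x : G), (y : G)⁆) ∈ Subgroup.center G := by
      intro x y
      rw [← QuotientGroup.eq_one_iff, commutatorElement_def]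
      have h1 := hBc _ x.2 _ y.2
      simp only [QuotientGroup.mk'_apply] at h1
      simp only [QuotientGroup.mk_mul, QuotientGroup.mk_inv]
      rw [h1]
      group
    have hco : ∀ x y : A, ((⁅x, y⁆ : A) : G) = ⁅(x : G), (y : G)⁆ := fun x y => rfl
    have hc : ∀ x y : A, ⁅x, y⁆ ∈ Subgroup.center A := by
      intro x y
      rw [Subgroup.mem_center_iff]
      intro g
      apply Subtype.ext
      rw [Subgroup.coe_mul, Subgroup.coe_mul, hco]
      exact Subgroup.mem_center_iff.mp (hcG x y) g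
    have hf : ∀ x y : A, ∃ m : ℕ, 0 < m ∧ ⁅x, y⁆ ^ m = 1 := by
      intro x y
      rcases finOrder_or (⁅(x : G), (y : G)⁆) with ⟨m, hm, h1⟩ | h1
      · refine ⟨m, hm, Subtype.ext ?_⟩
        rw [Subgroup.coe_pow, hco]
        exact h1
      · obtain ⟨φ, hφ⟩ := heis_of_central _ _ (hcG x y) h1
        exact absurd hφ (hno φ)
    have hci := center_index hc hf
    refine ⟨(Subgroup.center A).map A.subtype, ?_, ?_⟩
    · rw [Subgroup.index_map]
      rw [Subgroup.ker_subtype, sup_bot_eq, Subgroup.range_subtype]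
      exact Nat.mul_ne_zero hci hAi
    · rintro _ ⟨a, ha, rfl⟩ _ ⟨b, _, rfl⟩
      have := Subgroup.mem_center_iff.mp ha b
      have h2 := congrArg Subtype.val this
      simpa using h2.symm

end Pool.Agent.AutDim3
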