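import Pool.Agent.AutDim3.Chain

set_option autoImplicit false

namespace Pool.Agent.AutDim3

private theorem bd_ofFn {G : Type} {n : ℕ} (s : Fin (n + 1) → G) :
    bd (sg (List.ofFn s)) = ∑ i : Fin (n + 1), (-1 : ℝ) ^ (i : ℕ) •
      sg (List.ofFn fun j => s (i.succAbove j)) := by
  induction n with
  | zero =>
    rw [List.ofFn_succ, List.ofFn_zero, bd_cons, bd_nil, map_zero, sub_zero, Fin.sum_univ_one]
    simp
  | succ n ih =>
    rw [List.ofFn_succ, bd_cons, ih (fun i => s i.succ), map_sum,
      Fin.sum_univ_succ (n := n + 1), sub_eq_add_neg, ← Finset.sum_neg_distrib]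
    congr 1
    · simp
    · refine Finset.sum_congr rfl fun i _ => ?_
      rw [map_smul, cone_sg, List.ofFn_succ (f := fun j => s (i.succ.succAbove j)),
        Fin.succ_succAbove_zero]
      simp only [Fin.succ_succAbove_succ, Fin.val_succ, pow_succ, mul_neg, mul_one, neg_smul]

private theorem exists_ofFn {G : Type} {n : ℕ} {l : List G} (h : l.length = n) :
    ∃ s : Fin n → G, l = List.ofFn s := by
  subst h
  exact ⟨l.get, (List.ofFn_get l).symm⟩

/-- In dimension at most three the inclusion of the boundaries into the 3-chains splits. -/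
theorem exists_proj {G : Type} [Group G] (hG : DimLeThree G) :
    ∃ e : Ch G →ₗ[ℝ] Ch G,
      (∀ (g : G) (l : List G), l.length = 4 →
        e (sg (l.map (g * ·))) = push (g * ·) (e (sg l))) ∧
      (∀ l : List G, l.length = 4 → e (sg l) ∈ Deg (G := G) 4 ∧ bd (e (sg l)) = bd (sg l)) ∧
      (∀ l : List G, l.length = 5 → e (bd (sg l)) = 0) := by
  classical
  set B : Submodule ℝ (Ch G) := (Deg (G := G) 5).map bd with hB
  have hBdeg : ∀ w ∈ B, w ∈ Deg (G := G) 4 := by
    rintro _ ⟨w, hw, rfl⟩
    exact bd_mem_deg hw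
  have hBbd : ∀ w ∈ B, bd w = 0 := by
    rintro _ ⟨w, hw, rfl⟩
    exact bd_bd w
  have hBpush : ∀ (g : G), ∀ w ∈ B, push (g * ·) w ∈ B := by
    rintro g _ ⟨w, hw, rfl⟩
    rw [push_bd]
    exact ⟨_, push_mem_deg _ hw, rfl⟩
  let ρ : Representation ℝ G B :=
    { toFun := fun g => (push (g * ·)).restrict (hBpush g)
      map_one' := by
        ext1 w
        apply Subtype.ext
        have : (fun x : G => 1 * x) = fun x => x := by
          funext x
          exact one_mul x
        rw [LinearMap.coe_restrict_apply, this, push_id]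
        rfl
      map_mul' := by
        intro g h
        ext1 w
        apply Subtype.ext
        rw [LinearMap.coe_restrict_apply]
        change _ = push (g * ·) (push (h * ·) w)
        rw [push_push]
        congr 2
        funext x
        simp [mul_assoc] }
  have hρ : ∀ g (w : B), (ρ g w : Ch G) = push (g * ·) w := fun g w => rfl
  have hmem : ∀ s : Fin 5 → G, bd (sg (List.ofFn s)) ∈ B := fun s =>
    ⟨_, sg_mem_deg (by simp), rfl⟩
  obtain ⟨b, hb1, hb2⟩ := hG B ρ (fun s => ⟨bd (sg (List.ofFn s)), hmem s⟩) (by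
    intro g s
    apply Subtype.ext
    rw [hρ]
    change bd (sg (List.ofFn fun i => g * s i)) = push (g * ·) (bd (sg (List.ofFn s)))
    rw [push_bd, push_sg, List.map_ofFn]
    rfl) (by
    intro τ
    apply Subtype.ext
    rw [Submodule.coe_sum]
    simp only [Submodule.coe_smul, Submodule.coe_zero]
    have h1 : ∑ i : Fin 6, (-1 : ℝ) ^ (i : ℕ) • bd (sg (List.ofFn fun j => τ (i.succAbove j))) =
        bd (bd (sg (List.ofFn τ))) := by
      rw [bd_ofFn τ, map_sum]
      simp only [map_smul]
    rw [h1, bd_bd_sg])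
  set b' : Ch G →ₗ[ℝ] Ch G := Finsupp.linearCombination ℝ
    (fun l : List G => if l.length = 4 then (b (fun i => l.getD i 1) : Ch G) else 0) with hb'
  have hb's : ∀ s : Fin 4 → G, b' (sg (List.ofFn s)) = b s := by
    intro s
    have h1 : (fun i : Fin 4 => (List.ofFn s).getD i 1) = s := by
      funext i
      rw [List.getD_eq_getElem _ _ (by simp), List.getElem_ofFn]
    rw [hb']
    unfold sg
    rw [Finsupp.linearCombination_single, one_smul, if_pos (by simp), h1]
  refine ⟨LinearMap.id - b', ?_, ?_, ?_⟩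
  · intro g l hl
    obtain ⟨s, rfl⟩ := exists_ofFn hl
    rw [List.map_ofFn, LinearMap.sub_apply, LinearMap.sub_apply, LinearMap.id_apply,
      LinearMap.id_apply, hb's, hb's, map_sub, push_sg, List.map_ofFn]
    congr 1
    have := hb1 g s
    change (b (fun i => g * s i) : Ch G) = _
    rw [this, hρ]
  · intro l hl
    obtain ⟨s, rfl⟩ := exists_ofFn hl
    rw [LinearMap.sub_apply, LinearMap.id_apply, hb's]
    refine ⟨Submodule.sub_mem _ (sg_mem_deg (by simp)) (hBdeg _ (b s).2), ?_⟩
    rw [map_sub, hBbd _ (b s).2, sub_zero]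
  · intro l hl
    obtain ⟨s, rfl⟩ := exists_ofFn hl
    have h1 := congrArg Subtype.val (hb2 s)
    rw [Submodule.coe_sum] at h1
    simp only [Submodule.coe_smul] at h1
    rw [LinearMap.sub_apply, LinearMap.id_apply, sub_eq_zero]
    conv_rhs => rw [bd_ofFn, map_sum]
    simp only [map_smul, hb's]
    exact h1

end Pool.Agent.AutDim3
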