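import Pool.Agent.AutDim3.Chain

set_option autoImplicit false

namespace Pool.Agent.AutDim3

theorem sg_tup_mem_deg (g h k : Heis) : sg (tup g h k) ∈ Deg (G := Heis) 4 :=
  sg_mem_deg rfl

theorem fund_mem_deg : fund ∈ Deg (G := Heis) 4 := by
  unfold fund
  refine Submodule.add_mem _ (Submodule.add_mem _ (Submodule.sub_mem _ (Submodule.add_mem _
    (Submodule.sub_mem _ (Submodule.sub_mem _ ?_ ?_) ?_) ?_) ?_) ?_) ?_ <;>
  exact sg_tup_mem_deg _ _ _

theorem nrm_fund_le : nrm fund ≤ 7 := by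
  unfold fund
  have h : ∀ l : List Heis, nrm (sg l) = 1 := nrm_sg
  refine (nrm_add_le _ _).trans ?_
  have h1 := nrm_sub_le (sg (tup Heis.a Heis.c Heis.b)) (sg (tup Heis.c Heis.a Heis.b))
  have h2 := nrm_sub_le (sg (tup Heis.a Heis.c Heis.b) - sg (tup Heis.c Heis.a Heis.b))
    (sg (tup Heis.a Heis.b Heis.c))
  have h3 := nrm_add_le (sg (tup Heis.a Heis.c Heis.b) - sg (tup Heis.c Heis.a Heis.b)
    - sg (tup Heis.a Heis.b Heis.c)) (sg (tup Heis.c Heis.b Heis.a))
  have h4 := nrm_sub_le (sg (tup Heis.a Heis.c Heis.b) - sg (tup Heis.c Heis.a Heis.b)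
    - sg (tup Heis.a Heis.b Heis.c) + sg (tup Heis.c Heis.b Heis.a)) (sg (tup Heis.b Heis.c Heis.a))
  have h5 := nrm_add_le (sg (tup Heis.a Heis.c Heis.b) - sg (tup Heis.c Heis.a Heis.b)
    - sg (tup Heis.a Heis.b Heis.c) + sg (tup Heis.c Heis.b Heis.a)
    - sg (tup Heis.b Heis.c Heis.a)) (sg (tup Heis.b Heis.a Heis.c))
  simp only [h] at h1 h2 h3 h4 h5 ⊢
  linarith

/-- The boundary of a quadruple. -/
theorem bd_four {G : Type} (p q r s : G) :
    bd (sg [p, q, r, s]) = sg [q, r, s] - sg [p, r, s] + sg [p, q, s] - sg [p, q, r] := by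
  simp only [bd_cons, bd_nil, map_zero, sub_zero, map_sub, cone_sg]
  abel

/-- The boundary of a tuple, evaluated on an invariant functional. -/
theorem eval_bd_tup (E : Ch Heis →ₗ[ℝ] ℝ) (hE : InvUnder (MonoidHom.id Heis) E) (g h k : Heis) :
    E (bd (sg (tup g h k))) = E (sg [1, h, h * k]) - E (sg [1, g * h, g * h * k])
      + E (sg [1, g, g * (h * k)]) - E (sg [1, g, g * h]) := by
  unfold tup
  rw [bd_four, map_sub, map_add, map_sub]
  have h1 := hE g [1, h, h * k]
  simp only [MonoidHom.id_apply, List.map_cons, List.map_nil, mul_one, ← mul_assoc] at h1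
  rw [h1, mul_assoc g h k]

/-- `fund` is a cycle modulo the action of the Heisenberg group. -/
theorem fund_cycle (E : Ch Heis →ₗ[ℝ] ℝ) (hE : InvUnder (MonoidHom.id Heis) E) :
    E (bd fund) = 0 := by
  unfold fund
  simp only [map_sub, map_add, eval_bd_tup E hE]
  have e1 : Heis.a * Heis.c = Heis.c * Heis.a := by ext <;> simp [Heis.a, Heis.c]
  have e2 : Heis.b * Heis.c = Heis.c * Heis.b := by ext <;> simp [Heis.b, Heis.c]
  have e3 : Heis.a * Heis.b = Heis.c * (Heis.b * Heis.a) := by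
    ext <;> simp [Heis.a, Heis.b, Heis.c]
  have e4 : (Heis.b * Heis.a) * Heis.c = Heis.c * (Heis.b * Heis.a) := by
    ext <;> simp [Heis.a, Heis.b, Heis.c]
  simp only [mul_assoc, e1, e2, e3] at *
  simp only [e1, e2, e3, e4]
  ring

theorem nuL_four (p q r s : Heis) : nu (sg [p, q, r, s]) =
      ((p⁻¹ * q).x : ℝ) * (((q⁻¹ * r).z : ℝ) * ((r⁻¹ * s).y : ℝ)
        + ((q⁻¹ * r).x : ℝ) * ((r⁻¹ * s).y : ℝ) ^ 2 / 2) := by
  simp [nu, sg, nuL]

theorem nuL_ne {l : List Heis} (h : l.length ≠ 4) : nu (sg l) = 0 := by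
  have : nuL l = 0 := by
    match l with
    | [] => rfl
    | [_] => rfl
    | [_, _] => rfl
    | [_, _, _] => rfl
    | [_, _, _, _] => exact absurd rfl h
    | _ :: _ :: _ :: _ :: _ :: _ => rfl
  simp [nu, sg, this]

theorem nu_inv : InvUnder (MonoidHom.id Heis) nu := by
  intro n l
  by_cases hl : l.length = 4
  · match l, hl with
    | [p, q, r, s], _ =>
      simp only [MonoidHom.id_apply, List.map_cons, List.map_nil]
      rw [nuL_four, nuL_four]
      have h : ∀ x y : Heis, (n * x)⁻¹ * (n * y) = x⁻¹ * y := by intro x y; group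
      rw [h, h, h]
  · rw [nuL_ne hl, nuL_ne (by simpa using hl)]

theorem nu_closed : Closed 4 nu := by
  intro l hl
  match l, hl with
  | [p, q, r, s, t], _ =>
    simp only [bd_cons, bd_nil, map_zero, sub_zero, map_sub, cone_sg, nuL_four]
    simp only [Heis.mul_x, Heis.mul_y, Heis.mul_z, Heis.inv_x, Heis.inv_y, Heis.inv_z]
    push_cast
    ring

theorem nu_fund : nu fund = 1 := by
  unfold fund tup
  simp only [map_sub, map_add, nuL_four]
  simp [Heis.a, Heis.b, Heis.c]

theorem nu_dil (t : ℕ) (w : Ch Heis) : nu (push (Heis.dil t) w) = (t : ℝ) ^ 4 * nu w := by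
  have : nu ∘ₗ push (Heis.dil t) = ((t : ℝ) ^ 4) • nu := by
    apply ext_sg
    intro l
    rw [LinearMap.comp_apply, LinearMap.smul_apply, push_sg, smul_eq_mul]
    by_cases hl : l.length = 4
    · match l, hl with
      | [p, q, r, s], _ =>
        simp only [List.map_cons, List.map_nil]
        rw [nuL_four, nuL_four]
        simp only [← map_inv, ← map_mul]
        simp only [Heis.dil, MonoidHom.coe_mk, OneHom.coe_mk]
        push_cast
        ring
    · rw [nuL_ne hl, nuL_ne (by simpa using hl), mul_zero]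
  exact LinearMap.congr_fun this w

theorem len_pow_le {G : Type} [Group G] (C : Comb G) (g : G) (t : ℕ) :
    C.len (g ^ t) ≤ t * C.len g := by
  induction t with
  | zero => rw [pow_zero, C.len_one]; omega
  | succ t ih =>
    rw [pow_succ]
    refine (C.len_mul _ _).trans ?_
    rw [Nat.succ_mul]
    omega

theorem dil_a (t : ℕ) : Heis.dil t Heis.a = Heis.a ^ t := by
  induction t with
  | zero => ext <;> simp [Heis.dil, Heis.a]
  | succ t ih =>
    rw [pow_succ, ← ih]
    ext <;> simp [Heis.dil, Heis.a]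

theorem dil_b (t : ℕ) : Heis.dil t Heis.b = Heis.b ^ t := by
  induction t with
  | zero => ext <;> simp [Heis.dil, Heis.b]
  | succ t ih =>
    rw [pow_succ, ← ih]
    ext <;> simp [Heis.dil, Heis.b]

theorem dil_c (t : ℕ) : Heis.dil t Heis.c =
    Heis.a ^ t * Heis.b ^ t * (Heis.a ^ t)⁻¹ * (Heis.b ^ t)⁻¹ := by
  rw [← dil_a, ← dil_b]
  ext <;> simp [Heis.dil, Heis.a, Heis.b, Heis.c]
  ring

/-- The lists of the dilated fundamental cycle have linear diameter. -/
theorem small_fund {G : Type} [Group G] (C : Comb G) (φ : Heis →* G) :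
    ∃ A : ℕ, ∀ t : ℕ, ∀ l ∈ (push (fun n => φ (Heis.dil t n)) fund).support,
      C.Small (A * t) l := by
  set L := C.len (φ Heis.a) + C.len (φ Heis.b) with hL
  have ha : ∀ t : ℕ, C.len (φ (Heis.dil t Heis.a)) ≤ 2 * L * t := by
    intro t
    rw [dil_a, map_pow]
    refine (len_pow_le C _ t).trans ?_
    nlinarith [Nat.zero_le (t * C.len (φ Heis.b)), Nat.zero_le (t * C.len (φ Heis.a))]
  have hb : ∀ t : ℕ, C.len (φ (Heis.dil t Heis.b)) ≤ 2 * L * t := by
    intro t
    rw [dil_b, map_pow]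
    refine (len_pow_le C _ t).trans ?_
    nlinarith [Nat.zero_le (t * C.len (φ Heis.b)), Nat.zero_le (t * C.len (φ Heis.a))]
  have hc : ∀ t : ℕ, C.len (φ (Heis.dil t Heis.c)) ≤ 2 * L * t := by
    intro t
    rw [dil_c]
    simp only [map_mul, map_inv, map_pow]
    have h1 := len_pow_le C (φ Heis.a) t
    have h2 := len_pow_le C (φ Heis.b) t
    have h3 := C.len_mul (φ Heis.a ^ t * φ Heis.b ^ t * (φ Heis.a ^ t)⁻¹) (φ Heis.b ^ t)⁻¹
    have h4 := C.len_mul (φ Heis.a ^ t * φ Heis.b ^ t) (φ Heis.a ^ t)⁻¹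
    have h5 := C.len_mul (φ Heis.a ^ t) (φ Heis.b ^ t)
    rw [C.len_inv] at h3 h4
    rw [hL]
    nlinarith
  have hgen : ∀ t : ℕ, ∀ g ∈ ({Heis.a, Heis.b, Heis.c} : Set Heis),
      C.len (φ (Heis.dil t g)) ≤ 2 * L * t := by
    rintro t g (rfl | rfl | rfl)
    · exact ha t
    · exact hb t
    · exact hc t
  refine ⟨16 * L, ?_⟩
  intro t
  -- elements of word length at most four
  have hmul : ∀ (g h : Heis) (i j : ℕ), C.len (φ (Heis.dil t g)) ≤ i * (2 * L * t) →
      C.len (φ (Heis.dil t h)) ≤ j * (2 * L * t) →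
      C.len (φ (Heis.dil t (g * h))) ≤ (i + j) * (2 * L * t) := by
    intro g h i j h1 h2
    rw [map_mul, map_mul]
    refine (C.len_mul _ _).trans ?_
    rw [add_mul]
    omega
  have hA : C.len (φ (Heis.dil t Heis.a)) ≤ 1 * (2 * L * t) := by rw [one_mul]; exact ha t
  have hB : C.len (φ (Heis.dil t Heis.b)) ≤ 1 * (2 * L * t) := by rw [one_mul]; exact hb t
  have hC : C.len (φ (Heis.dil t Heis.c)) ≤ 1 * (2 * L * t) := by rw [one_mul]; exact hc t
  have htup : ∀ g h k : Heis, C.len (φ (Heis.dil t g)) ≤ 1 * (2 * L * t) →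
      C.len (φ (Heis.dil t h)) ≤ 2 * (2 * L * t) → C.len (φ (Heis.dil t k)) ≤ 1 * (2 * L * t) →
      push (fun n => φ (Heis.dil t n)) (sg (tup g h k)) ∈
        Finsupp.supported ℝ ℝ {l : List G | C.Small (16 * L * t) l} := by
    intro g h k hg hh hk
    rw [push_sg]
    refine sg_mem_supported ?_
    have h2 := hmul g h 1 2 hg hh
    have h3 := hmul (g * h) k 3 1 h2 hk
    have hall : ∀ p ∈ (tup g h k).map (fun n => φ (Heis.dil t n)),
        C.len p ≤ 4 * (2 * L * t) := by
      intro p hp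
      simp only [tup, List.map_cons, List.map_nil, List.mem_cons, List.not_mem_nil, or_false] at hp
      rcases hp with rfl | rfl | rfl | rfl
      · rw [map_one, map_one, C.len_one]; omega
      · refine hg.trans (Nat.mul_le_mul_right _ (by norm_num))
      · refine h2.trans (Nat.mul_le_mul_right _ (by norm_num))
      · exact h3
    intro p hp q hq
    refine (C.len_mul _ _).trans ?_
    rw [C.len_inv]
    have h4 := hall p hp
    have h5 := hall q hq
    calc C.len p + C.len q ≤ 4 * (2 * L * t) + 4 * (2 * L * t) := add_le_add h4 h5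
      _ = 16 * L * t := by ring
  have hone : ∀ g : Heis, C.len (φ (Heis.dil t g)) ≤ 1 * (2 * L * t) →
      C.len (φ (Heis.dil t g)) ≤ 2 * (2 * L * t) := by
    intro g hg
    exact hg.trans (Nat.mul_le_mul_right _ (by norm_num))
  have hmem : push (fun n => φ (Heis.dil t n)) fund ∈
      Finsupp.supported ℝ ℝ {l : List G | C.Small (16 * L * t) l} := by
    unfold fund
    simp only [map_sub, map_add]
    refine Submodule.add_mem _ (Submodule.add_mem _ (Submodule.sub_mem _ (Submodule.add_mem _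
      (Submodule.sub_mem _ (Submodule.sub_mem _ ?_ ?_) ?_) ?_) ?_) ?_) ?_
    · exact htup _ _ _ hA (hone _ hC) hB
    · exact htup _ _ _ hC (hone _ hA) hB
    · exact htup _ _ _ hA (hone _ hB) hC
    · exact htup _ _ _ hC (hone _ hB) hA
    · exact htup _ _ _ hB (hone _ hC) hA
    · exact htup _ _ _ hB (hone _ hA) hC
    · exact htup _ _ _ hC (hmul _ _ 1 1 hB hA) hC
  rw [Finsupp.mem_supported] at hmem
  intro l hl
  exact hmem hl

end Pool.Agent.AutDim3
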