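import Pool.Agent.AutDim3.Chain

set_option autoImplicit false

namespace Pool.Agent.AutDim3

/-- Invariance under a subgroup of the Heisenberg group. -/
private def WInv (S : Subgroup Heis) (F : Ch Heis →ₗ[ℝ] ℝ) : Prop :=
  ∀ s ∈ S, ∀ l : List Heis, F (sg (l.map (s * ·))) = F (sg l)

private theorem winv_apply {S : Subgroup Heis} {F : Ch Heis →ₗ[ℝ] ℝ} (h : WInv S F) {s : Heis}
    (hs : s ∈ S) (w : Ch Heis) : F (push (s * ·) w) = F w := by
  have : F ∘ₗ push (s * ·) = F := by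
    apply ext_sg
    intro l
    rw [LinearMap.comp_apply, push_sg]
    exact h s hs l
  exact LinearMap.congr_fun this w

private theorem map_mul_map (g h : Heis) (l : List Heis) :
    (l.map (h * ·)).map (g * ·) = l.map (g * h * ·) := by
  rw [List.map_map]
  congr 1
  funext p
  simp [mul_assoc]

private theorem map_one_mul (l : List Heis) : l.map ((1 : Heis) * ·) = l := by
  simp

/-- The stabiliser of a functional. -/
private def wstab (F : Ch Heis →ₗ[ℝ] ℝ) : Subgroup Heis where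
  carrier := {g | ∀ l : List Heis, F (sg (l.map (g * ·))) = F (sg l)}
  mul_mem' := by
    intro g h hg hh l
    have h1 := hg (l.map (h * ·))
    rw [map_mul_map] at h1
    exact h1.trans (hh l)
  one_mem' := by
    intro l
    rw [map_one_mul]
  inv_mem' := by
    intro g hg l
    have h1 := hg (l.map (g⁻¹ * ·))
    rw [map_mul_map, mul_inv_cancel, map_one_mul] at h1
    exact h1.symm

private theorem mem_wstab {F : Ch Heis →ₗ[ℝ] ℝ} {g : Heis} :
    g ∈ wstab F ↔ ∀ l : List Heis, F (sg (l.map (g * ·))) = F (sg l) := Iff.rfl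

private theorem winv_iff {S : Subgroup Heis} {F : Ch Heis →ₗ[ℝ] ℝ} :
    WInv S F ↔ S ≤ wstab F := Iff.rfl

/-- The functional with given values on lists. -/
private noncomputable def fnl (f : List Heis → ℝ) : Ch Heis →ₗ[ℝ] ℝ :=
  Finsupp.linearCombination ℝ f

private theorem fnl_sg (f : List Heis → ℝ) (l : List Heis) : fnl f (sg l) = f l := by
  simp [fnl, sg]

/-- Solution of a difference equation. -/
private noncomputable def wsol (p : ℤ → ℝ) (k : ℤ) : ℝ :=
  (∑ i ∈ Finset.Ico k 0, p i) - ∑ i ∈ Finset.Ico 0 k, p i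

private theorem wsol_sub (p : ℤ → ℝ) (k : ℤ) : wsol p k - wsol p (k + 1) = p k := by
  unfold wsol
  rcases lt_or_ge k 0 with h | h
  · have e1 : Finset.Ico k 0 = insert k (Finset.Ico (k + 1) 0) := by
      ext i
      simp only [Finset.mem_insert, Finset.mem_Ico]
      omega
    have e2 : Finset.Ico 0 k = ∅ := Finset.Ico_eq_empty (by omega)
    have e3 : Finset.Ico 0 (k + 1) = ∅ := Finset.Ico_eq_empty (by omega)
    rw [e1, e2, e3, Finset.sum_insert (by simp)]
    simp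
  · have e1 : Finset.Ico 0 (k + 1) = insert k (Finset.Ico 0 k) := by
      ext i
      simp only [Finset.mem_insert, Finset.mem_Ico]
      omega
    have e2 : Finset.Ico k 0 = ∅ := Finset.Ico_eq_empty (by omega)
    have e3 : Finset.Ico (k + 1) 0 = ∅ := Finset.Ico_eq_empty (by omega)
    rw [e1, e2, e3, Finset.sum_insert (by simp)]
    simp

/-- The coordinate of the first entry. -/
private def kap (κ : Heis → ℤ) : List Heis → ℤ
  | [] => 0
  | p :: _ => κ p

/-- The data of one step. -/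
private structure WStep (S S' : Subgroup Heis) (τ : Heis) (κ : Heis → ℤ) : Prop where
  norm : ∀ g : Heis, ∀ s ∈ S, g * s * g⁻¹ ∈ S
  kS : ∀ s ∈ S, ∀ p, κ (s * p) = κ p
  kt : ∀ p, κ (τ * p) = κ p + 1
  tmem : τ ∈ S'
  le : S ≤ S'
  le' : S' ≤ S ⊔ Subgroup.zpowers τ

/-- (1) Surjectivity. -/
private theorem wang_surj {S S' : Subgroup Heis} {τ : Heis} {κ : Heis → ℤ} (T : WStep S S' τ κ)
    {E' : Ch Heis →ₗ[ℝ] ℝ} (hE : WInv S E') : ∃ h : Ch Heis →ₗ[ℝ] ℝ, WInv S h ∧
      ∀ l : List Heis, l ≠ [] → h (sg l) - h (sg (l.map (τ * ·))) = E' (sg l) := by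
  refine ⟨fnl fun l => wsol (fun m => E' (sg (l.map (τ ^ (m - kap κ l) * ·)))) (kap κ l), ?_, ?_⟩
  · intro s hs l
    rw [fnl_sg, fnl_sg]
    have hk : kap κ (l.map (s * ·)) = kap κ l := by
      cases l with
      | nil => rfl
      | cons p l => exact T.kS s hs p
    rw [hk]
    congr 1
    funext m
    rw [map_mul_map]
    have e : τ ^ (m - kap κ l) * s =
        (τ ^ (m - kap κ l) * s * (τ ^ (m - kap κ l))⁻¹) * τ ^ (m - kap κ l) := by group
    rw [e, ← map_mul_map]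
    exact hE _ (T.norm _ s hs) _
  · intro l hl
    rw [fnl_sg, fnl_sg]
    have hk : kap κ (l.map (τ * ·)) = kap κ l + 1 := by
      cases l with
      | nil => exact absurd rfl hl
      | cons p l => exact T.kt p
    rw [hk]
    have e : (fun m => E' (sg ((l.map (τ * ·)).map (τ ^ (m - (kap κ l + 1)) * ·)))) =
        fun m => E' (sg (l.map (τ ^ (m - kap κ l) * ·))) := by
      funext m
      have e0 : m - (kap κ l + 1) + 1 = m - kap κ l := by ring
      rw [map_mul_map, ← zpow_add_one, e0]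
    rw [e, wsol_sub, sub_self, zpow_zero, map_one_mul]

/-- Restriction to lists with `n` entries. -/
private noncomputable def lev (n : ℕ) (F : Ch Heis →ₗ[ℝ] ℝ) : Ch Heis →ₗ[ℝ] ℝ :=
  fnl fun l => if l.length = n then F (sg l) else 0

private theorem lev_sg {n : ℕ} {F : Ch Heis →ₗ[ℝ] ℝ} {l : List Heis} (h : l.length = n) :
    lev n F (sg l) = F (sg l) := by
  unfold lev
  rw [fnl_sg, if_pos h]

private theorem lev_apply {n : ℕ} {F : Ch Heis →ₗ[ℝ] ℝ} {w : Ch Heis}
    (h : w ∈ Deg (G := Heis) n) : lev n F w = F w :=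
  eq_of_sg (lev n F) F (fun _ hl => lev_sg hl) h

private theorem mem_wstab_lev {n : ℕ} {F : Ch Heis →ₗ[ℝ] ℝ} {g : Heis}
    (h : ∀ l : List Heis, l.length = n → F (sg (l.map (g * ·))) = F (sg l)) :
    g ∈ wstab (lev n F) := by
  intro l
  by_cases hl : l.length = n
  · rw [lev_sg hl, lev_sg (by simpa using hl)]
    exact h l hl
  · unfold lev
    rw [fnl_sg, fnl_sg, if_neg hl, if_neg (by simpa using hl)]

/-- (2) The Wang step. -/
private theorem wang_step {S S' : Subgroup Heis} {τ : Heis} {κ : Heis → ℤ} (T : WStep S S' τ κ)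
    {n : ℕ} {F E E' : Ch Heis →ₗ[ℝ] ℝ} (hES : WInv S E) (hE'S : WInv S E')
    (hFE : ∀ l : List Heis, l.length = n + 3 → F (sg l) = E (bd (sg l)))
    (hEE' : ∀ l : List Heis, l.length = n + 2 →
      E (sg l) - E (sg (l.map (τ * ·))) = E' (bd (sg l))) :
    ∃ E'' : Ch Heis →ₗ[ℝ] ℝ, WInv S' E'' ∧
      ∀ l : List Heis, l.length = n + 3 → F (sg l) = E'' (bd (sg l)) := by
  obtain ⟨h, hhS, hh⟩ := wang_surj T hE'S
  refine ⟨lev (n + 2) (E - h ∘ₗ bd), ?_, ?_⟩
  · rw [winv_iff]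
    refine le_trans T.le' (sup_le ?_ ?_)
    · intro s hs
      apply mem_wstab_lev
      intro l _
      rw [LinearMap.sub_apply, LinearMap.sub_apply, LinearMap.comp_apply, LinearMap.comp_apply,
        hES s hs, ← push_sg, ← push_bd, winv_apply hhS hs]
    · rw [Subgroup.zpowers_le]
      apply mem_wstab_lev
      intro l hl
      rw [LinearMap.sub_apply, LinearMap.sub_apply, LinearMap.comp_apply, LinearMap.comp_apply]
      have e1 := hEE' l hl
      have e2 : h (bd (sg l)) - h (push (τ * ·) (bd (sg l))) = E' (bd (sg l)) := by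
        refine eq_of_sg (h - h ∘ₗ push (τ * ·)) E' ?_ (bd_sg_mem_deg (n := n + 1) hl)
        intro m hm
        rw [LinearMap.sub_apply, LinearMap.comp_apply, push_sg]
        apply hh
        intro h0
        rw [h0] at hm
        simp at hm
      rw [← push_sg (τ * ·) l, ← push_bd] 
      rw [← push_sg (τ * ·) l] at e1
      linarith
  · intro l hl
    rw [lev_apply (bd_sg_mem_deg (n := n + 2) hl), LinearMap.sub_apply, LinearMap.comp_apply,
      bd_bd_sg, map_zero, sub_zero]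
    exact hFE l hl

/-- Vanishing. -/
private def Van (S : Subgroup Heis) (n : ℕ) : Prop :=
  ∀ F : Ch Heis →ₗ[ℝ] ℝ, WInv S F → Closed n F →
    ∃ E : Ch Heis →ₗ[ℝ] ℝ, WInv S E ∧ ∀ l : List Heis, l.length = n → F (sg l) = E (bd (sg l))

/-- Dimension at most one. -/
private def DimOne (S : Subgroup Heis) (n : ℕ) : Prop :=
  ∀ F₁ F₂ : Ch Heis →ₗ[ℝ] ℝ, WInv S F₁ → WInv S F₂ → Closed n F₁ → Closed n F₂ →
    ∃ c₁ c₂ : ℝ, (c₁ ≠ 0 ∨ c₂ ≠ 0) ∧ ∃ E : Ch Heis →ₗ[ℝ] ℝ, WInv S E ∧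
      ∀ l : List Heis, l.length = n → c₁ * F₁ (sg l) + c₂ * F₂ (sg l) = E (bd (sg l))

private theorem van_bot (n : ℕ) : Van ⊥ n := by
  intro F _ hF
  refine ⟨F ∘ₗ cone 1, ?_, ?_⟩
  · intro s hs l
    rw [Subgroup.mem_bot] at hs
    rw [hs, map_one_mul]
  · intro l hl
    have h1 := hF (1 :: l) (by simp [hl])
    rw [bd_cons, map_sub, sub_eq_zero] at h1
    exact h1

/-- the difference of a functional and its translate -/
private theorem diff_props {S S' : Subgroup Heis} {τ : Heis} {κ : Heis → ℤ} (T : WStep S S' τ κ)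
    {n : ℕ} {F E : Ch Heis →ₗ[ℝ] ℝ} (hF : WInv S' F) (hES : WInv S E)
    (hFE : ∀ l : List Heis, l.length = n + 1 → F (sg l) = E (bd (sg l))) :
    WInv S (E - E ∘ₗ push (τ * ·)) ∧ Closed n (E - E ∘ₗ push (τ * ·)) := by
  constructor
  · intro s hs l
    rw [LinearMap.sub_apply, LinearMap.sub_apply, LinearMap.comp_apply, LinearMap.comp_apply,
      hES s hs, push_sg, push_sg, map_mul_map]
    have e : τ * s = (τ * s * τ⁻¹) * τ := by group
    rw [e, ← map_mul_map, hES _ (T.norm τ s hs)]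
  · intro l hl
    rw [LinearMap.sub_apply, LinearMap.comp_apply, push_bd, push_sg, ← hFE l hl,
      ← hFE _ (by simpa using hl), hF τ T.tmem, sub_self]

private theorem van_step {S S' : Subgroup Heis} {τ : Heis} {κ : Heis → ℤ} (T : WStep S S' τ κ)
    {n : ℕ} (h1 : Van S (n + 3)) (h2 : Van S (n + 2)) : Van S' (n + 3) := by
  intro F hF hc
  obtain ⟨E, hE, hFE⟩ := h1 F (fun s hs => hF s (T.le hs)) hc
  obtain ⟨hD1, hD2⟩ := diff_props T hF hE hFE
  obtain ⟨E', hE', hEE'⟩ := h2 _ hD1 hD2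
  refine wang_step T hE hE' hFE fun l hl => ?_
  have := hEE' l hl
  rwa [LinearMap.sub_apply, LinearMap.comp_apply, push_sg] at this

private theorem dim_step {S S' : Subgroup Heis} {τ : Heis} {κ : Heis → ℤ} (T : WStep S S' τ κ)
    {n : ℕ} (h1 : Van S (n + 3)) (h2 : DimOne S (n + 2)) : DimOne S' (n + 3) := by
  intro F₁ F₂ hF₁ hF₂ hc₁ hc₂
  obtain ⟨E₁, hE₁, hFE₁⟩ := h1 F₁ (fun s hs => hF₁ s (T.le hs)) hc₁
  obtain ⟨E₂, hE₂, hFE₂⟩ := h1 F₂ (fun s hs => hF₂ s (T.le hs)) hc₂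
  obtain ⟨hD1, hD2⟩ := diff_props T hF₁ hE₁ hFE₁
  obtain ⟨hD3, hD4⟩ := diff_props T hF₂ hE₂ hFE₂
  obtain ⟨c₁, c₂, hc, E', hE', hEE'⟩ := h2 _ _ hD1 hD3 hD2 hD4
  refine ⟨c₁, c₂, hc, ?_⟩
  obtain ⟨E'', h3, h4⟩ := wang_step T (n := n) (F := c₁ • F₁ + c₂ • F₂) (E := c₁ • E₁ + c₂ • E₂)
    (E' := E') (fun s hs l => by
      simp only [LinearMap.add_apply, LinearMap.smul_apply]
      rw [hE₁ s hs, hE₂ s hs]) hE' (fun l hl => by
      simp only [LinearMap.add_apply, LinearMap.smul_apply]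
      rw [hFE₁ l hl, hFE₂ l hl]) (fun l hl => by
      have := hEE' l hl
      simp only [LinearMap.add_apply, LinearMap.smul_apply, LinearMap.sub_apply,
        LinearMap.comp_apply, push_sg, smul_eq_mul] at this ⊢
      linarith)
  exact ⟨E'', h3, fun l hl => by
    have := h4 l hl
    simpa using this⟩

/-! ### the three subgroups -/

private def S1 : Subgroup Heis where
  carrier := {g | g.x = 0 ∧ g.y = 0}
  mul_mem' := by
    rintro g h ⟨h1, h2⟩ ⟨h3, h4⟩
    exact ⟨by simp [h1, h3], by simp [h2, h4]⟩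
  one_mem' := ⟨rfl, rfl⟩
  inv_mem' := by
    rintro g ⟨h1, h2⟩
    exact ⟨by simp [h1], by simp [h2]⟩

private def S2 : Subgroup Heis where
  carrier := {g | g.x = 0}
  mul_mem' := by
    intro g h h1 h3
    have h1' : g.x = 0 := h1
    have h3' : h.x = 0 := h3
    show (g * h).x = 0
    simp [h1', h3']
  one_mem' := rfl
  inv_mem' := by
    intro g h1
    have h1' : g.x = 0 := h1
    show (g⁻¹).x = 0
    simp [h1']

private theorem mem_S1 {g : Heis} : g ∈ S1 ↔ g.x = 0 ∧ g.y = 0 := Iff.rfl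
private theorem mem_S2 {g : Heis} : g ∈ S2 ↔ g.x = 0 := Iff.rfl

private theorem c_zpow (n : ℤ) : Heis.c ^ n = ⟨0, 0, n⟩ := by
  induction n using Int.induction_on with
  | zero => rfl
  | succ n ih => rw [zpow_add_one, ih]; ext <;> simp [Heis.c]
  | pred n ih => rw [zpow_sub_one, ih]; ext <;> simp [Heis.c]; rfl

private theorem b_zpow (n : ℤ) : Heis.b ^ n = ⟨0, n, 0⟩ := by
  induction n using Int.induction_on with
  | zero => rfl
  | succ n ih => rw [zpow_add_one, ih]; ext <;> simp [Heis.b]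
  | pred n ih => rw [zpow_sub_one, ih]; ext <;> simp [Heis.b]; rfl

private theorem a_zpow (n : ℤ) : Heis.a ^ n = ⟨n, 0, 0⟩ := by
  induction n using Int.induction_on with
  | zero => rfl
  | succ n ih => rw [zpow_add_one, ih]; ext <;> simp [Heis.a]
  | pred n ih => rw [zpow_sub_one, ih]; ext <;> simp [Heis.a]; rfl

private theorem step1 : WStep ⊥ S1 Heis.c Heis.z where
  norm g s hs := by
    rw [Subgroup.mem_bot] at hs ⊢
    rw [hs]
    group
  kS s hs p := by
    rw [Subgroup.mem_bot] at hs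
    rw [hs, one_mul]
  kt p := by simp [Heis.c]; ring
  tmem := ⟨rfl, rfl⟩
  le := bot_le
  le' := by
    rw [bot_sup_eq]
    rintro g ⟨h1, h2⟩
    rw [Subgroup.mem_zpowers_iff]
    exact ⟨g.z, by rw [c_zpow]; ext <;> simp [h1, h2]⟩

private theorem step2 : WStep S1 S2 Heis.b Heis.y where
  norm g s hs := by
    rw [mem_S1] at hs ⊢
    simp [hs.1, hs.2]
  kS s hs p := by
    rw [mem_S1] at hs
    simp [hs.2]
  kt p := by simp [Heis.b]; ring
  tmem := rfl
  le := fun g hg => hg.1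
  le' := by
    intro g hg
    rw [mem_S2] at hg
    have e : g = (⟨0, 0, g.z⟩ : Heis) * Heis.b ^ g.y := by
      rw [b_zpow]
      ext <;> simp [hg]
    rw [e]
    exact mul_mem (Subgroup.mem_sup_left ⟨rfl, rfl⟩)
      (Subgroup.mem_sup_right (Subgroup.zpow_mem_zpowers _ _))

private theorem step3 : WStep S2 ⊤ Heis.a Heis.x where
  norm g s hs := by
    rw [mem_S2] at hs ⊢
    simp [hs]
  kS s hs p := by
    rw [mem_S2] at hs
    simp [hs]
  kt p := by simp [Heis.a]; ring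
  tmem := Subgroup.mem_top _
  le := le_top
  le' := by
    intro g _
    have e : g = (⟨0, g.y, g.z⟩ : Heis) * Heis.a ^ g.x := by
      rw [a_zpow]
      ext <;> simp
    rw [e]
    exact mul_mem (Subgroup.mem_sup_left rfl)
      (Subgroup.mem_sup_right (Subgroup.zpow_mem_zpowers _ _))

/-- (4) the case of lists with two entries and the subgroup generated by `c` -/
private theorem dim_base : DimOne S1 2 := by
  intro F₁ F₂ hF₁ hF₂ hc₁ hc₂
  have bd1 : ∀ p : Heis, bd (sg [p]) = sg [] := by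
    intro p
    rw [bd_cons, bd_nil, map_zero, sub_zero]
  have bd2 : ∀ p q : Heis, bd (sg [p, q]) = sg [q] - sg [p] := by
    intro p q
    rw [bd_cons, bd1, cone_sg]
  have bd3 : ∀ p q r : Heis, bd (sg [p, q, r]) = sg [q, r] - (sg [p, r] - sg [p, q]) := by
    intro p q r
    rw [bd_cons, bd2, map_sub, cone_sg, cone_sg]
  have key : ∀ F : Ch Heis →ₗ[ℝ] ℝ, WInv S1 F → Closed 2 F →
      (∀ p q, F (sg [p, q]) = F (sg [1, q]) - F (sg [1, p])) ∧
      ∃ k : ℝ, ∀ p, F (sg [1, Heis.c * p]) = F (sg [1, p]) + k := by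
    intro F hF hc
    have h1 : ∀ p q, F (sg [p, q]) = F (sg [1, q]) - F (sg [1, p]) := by
      intro p q
      have := hc [1, p, q] rfl
      rw [bd3, map_sub, map_sub] at this
      linarith
    refine ⟨h1, F (sg [1, Heis.c * 1]) - F (sg [1, 1]), fun p => ?_⟩
    have h2 := hF Heis.c (by exact ⟨rfl, rfl⟩) [1, p]
    change F (sg [Heis.c * 1, Heis.c * p]) = F (sg [1, p]) at h2
    rw [h1] at h2
    have h3 := h1 1 1
    rw [sub_self] at h3
    linarith
  obtain ⟨h1, k₁, hk₁⟩ := key F₁ hF₁ hc₁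
  obtain ⟨h2, k₂, hk₂⟩ := key F₂ hF₂ hc₂
  obtain ⟨c₁, c₂, hc, hck⟩ : ∃ c₁ c₂ : ℝ, (c₁ ≠ 0 ∨ c₂ ≠ 0) ∧ c₁ * k₁ + c₂ * k₂ = 0 := by
    by_cases h : k₁ = 0
    · exact ⟨1, 0, Or.inl one_ne_zero, by rw [h]; ring⟩
    · exact ⟨k₂, -k₁, Or.inr (neg_ne_zero.2 h), by ring⟩
  refine ⟨c₁, c₂, hc, lev 1 ((c₁ • F₁ + c₂ • F₂) ∘ₗ cone 1), ?_, ?_⟩
  · rw [winv_iff]
    refine le_trans step1.le' ?_
    rw [bot_sup_eq, Subgroup.zpowers_le]
    apply mem_wstab_lev
    intro l hl
    match l, hl with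
    | [p], _ =>
      simp only [List.map_cons, List.map_nil, LinearMap.comp_apply, cone_sg, LinearMap.add_apply,
        LinearMap.smul_apply, smul_eq_mul]
      rw [hk₁, hk₂]
      linarith
  · intro l hl
    match l, hl with
    | [p, q], _ =>
      rw [lev_apply (bd_sg_mem_deg (n := 1) rfl), bd2, map_sub]
      simp only [LinearMap.comp_apply, cone_sg, LinearMap.add_apply,
        LinearMap.smul_apply, smul_eq_mul]
      rw [h1 p q, h2 p q]
      ring

/-- `H^3` of the Heisenberg group with real coefficients has dimension at most one. -/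
theorem heis_dim_one (F₁ F₂ : Ch Heis →ₗ[ℝ] ℝ) (hi₁ : InvUnder (MonoidHom.id Heis) F₁)
    (hi₂ : InvUnder (MonoidHom.id Heis) F₂) (hc₁ : Closed 4 F₁) (hc₂ : Closed 4 F₂) :
    ∃ c₁ c₂ : ℝ, (c₁ ≠ 0 ∨ c₂ ≠ 0) ∧ ∃ E : Ch Heis →ₗ[ℝ] ℝ, InvUnder (MonoidHom.id Heis) E ∧
      ∀ l : List Heis, l.length = 4 → c₁ * F₁ (sg l) + c₂ * F₂ (sg l) = E (bd (sg l)) := by
  have v13 : Van S1 3 := van_step step1 (n := 0) (van_bot 3) (van_bot 2)
  have v14 : Van S1 4 := van_step step1 (n := 1) (van_bot 4) (van_bot 3)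
  have v24 : Van S2 4 := van_step step2 (n := 1) v14 v13
  have d23 : DimOne S2 3 := dim_step step2 (n := 0) v13 dim_base
  have d34 : DimOne ⊤ 4 := dim_step step3 (n := 1) v24 d23
  obtain ⟨c₁, c₂, hc, E, hE, h⟩ := d34 F₁ F₂ (fun s _ l => hi₁ s l) (fun s _ l => hi₂ s l) hc₁ hc₂
  exact ⟨c₁, c₂, hc, E, fun s l => hE s (Subgroup.mem_top s) l, h⟩

end Pool.Agent.AutDim3
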