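import Pool.Agent.AutDim3.Pump
import Pool.Agent.AutDim3.Eff
import Pool.Agent.AutDim3.Proj
import Pool.Agent.AutDim3.Wang
import Pool.Agent.AutDim3.Vol
import Pool.Agent.AutDim3.NilpFg

set_option autoImplicit false

namespace Pool.Agent.AutDim3

/-- An invariant function is bounded on lists of bounded length and diameter. -/
theorem bounded_of_inv {G : Type} [Group G] (C : Comb G) (f : List G → ℝ)
    (hf : ∀ (g : G) (l : List G), l.length = 4 → f (l.map (g * ·)) = f l) (R : ℕ) :
    ∃ M : ℝ, ∀ l : List G, l.length = 4 → C.Small R l → f l ≤ M := by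
  classical
  have hfin : {l : List G | l.length = 4 ∧ ∀ p ∈ l, C.len p ≤ R}.Finite := by
    have hb := C.fin_ball R
    set B : Finset G := hb.toFinset with hB
    have : {l : List G | l.length = 4 ∧ ∀ p ∈ l, C.len p ≤ R} ⊆
        (fun t : G × G × G × G => [t.1, t.2.1, t.2.2.1, t.2.2.2]) ''
          ((B ×ˢ B ×ˢ B ×ˢ B : Finset (G × G × G × G)) : Set (G × G × G × G)) := by
      rintro l ⟨hl, hp⟩
      match l, hl with
      | [p, q, r, s], _ =>
        refine ⟨(p, q, r, s), ?_, rfl⟩
        simp only [Finset.coe_product, Set.mem_prod, Finset.mem_coe, hB, Set.Finite.mem_toFinset,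
          Set.mem_ofPred_eq]
        exact ⟨hp p (by simp), hp q (by simp), hp r (by simp), hp s (by simp)⟩
    exact (Set.Finite.image _ (Finset.finite_toSet _)).subset this
  obtain ⟨M, hM⟩ := (hfin.image f).bddAbove
  refine ⟨M, ?_⟩
  intro l hl hs
  match l, hl with
  | p :: l', hl =>
    have h1 := hf p⁻¹ (p :: l') hl
    rw [← h1]
    apply hM
    refine ⟨_, ⟨?_, ?_⟩, rfl⟩
    · simpa using hl
    · intro q hq
      rw [List.mem_map] at hq
      obtain ⟨q', hq', rfl⟩ := hq
      exact hs p (by simp) q' hq'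

/-- The key estimate: an invariant cocycle which is bounded on simplices of bounded diameter
vanishes on the fundamental cycle of every Heisenberg subgroup. -/
theorem vanish {G : Type} [Group G] (C : Comb G) (φ : Heis →* G) (F : Ch G →ₗ[ℝ] ℝ)
    (hi : InvUnder φ F) (hc : Closed 4 F)
    (hb : ∀ R : ℕ, ∃ M : ℝ, ∀ l : List G, l.length = 4 → C.Small R l → |F (sg l)| ≤ M) :
    F (push φ fund) = 0 := by
  obtain ⟨S, H₄, H₃, R, A, hH₃, hH₄, hS, hn⟩ := exists_eff C
  obtain ⟨M, hM⟩ := hb R
  obtain ⟨D, hD⟩ := small_fund C φ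
  have hM0 : 0 ≤ |M| := abs_nonneg M
  -- the functional on the Heisenberg group
  set F₁ : Ch Heis →ₗ[ℝ] ℝ := F ∘ₗ push φ with hF₁
  have hF₁i : InvUnder (MonoidHom.id Heis) F₁ := by
    intro n l
    simp only [hF₁, LinearMap.comp_apply, push_sg, MonoidHom.id_apply, List.map_map]
    have := hi n (l.map φ)
    rw [List.map_map] at this
    rw [← this]
    congr 2
    apply List.map_congr_left
    intro x _
    simp
  have hF₁c : Closed 4 F₁ := by
    intro l hl
    simp only [hF₁, LinearMap.comp_apply]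
    rw [push_bd, push_sg]
    exact hc _ (by simpa using hl)
  obtain ⟨c₁, c₂, hcc, E, hEi, hE⟩ := heis_dim_one F₁ nu hF₁i nu_inv hF₁c nu_closed
  have hEd : ∀ w ∈ Deg (G := Heis) 4, c₁ * F₁ w + c₂ * nu w = E (bd w) := by
    intro w hw
    have := eq_of_sg (c₁ • F₁ + c₂ • nu) (E ∘ₗ bd) (fun l hl => by simpa using hE l hl) hw
    simpa using this
  have hdil : ∀ t : ℕ, InvUnder (MonoidHom.id Heis) (E ∘ₗ push (Heis.dil t)) := by
    intro t n l
    simp only [LinearMap.comp_apply, push_sg, MonoidHom.id_apply, List.map_map]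
    have := hEi (Heis.dil t n) (l.map (Heis.dil t))
    rw [List.map_map] at this
    rw [← this]
    congr 2
    apply List.map_congr_left
    intro x _
    simp
  have h1 : c₁ * F₁ fund + c₂ = 0 := by
    have := hEd fund fund_mem_deg
    rw [nu_fund, fund_cycle E hEi] at this
    linarith
  have h2 : ∀ t : ℕ, c₁ * F₁ (push (Heis.dil t) fund) + c₂ * (t : ℝ) ^ 4 = 0 := by
    intro t
    have := hEd (push (Heis.dil t) fund) (push_mem_deg _ fund_mem_deg)
    rw [nu_dil, nu_fund, ← push_bd] at this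
    have h3 := fund_cycle _ (hdil t)
    rw [LinearMap.comp_apply] at h3
    rw [h3] at this
    linarith
  have hc1 : c₁ ≠ 0 := by
    intro h
    rw [h] at h1 hcc
    rcases hcc with h' | h'
    · exact h' rfl
    · exact h' (by linarith)
  have h3 : ∀ t : ℕ, F₁ (push (Heis.dil t) fund) = (t : ℝ) ^ 4 * F₁ fund := by
    intro t
    have e1 := h2 t
    have e2 : c₂ = - (c₁ * F₁ fund) := by linarith
    rw [e2] at e1
    have : c₁ * (F₁ (push (Heis.dil t) fund) - (t : ℝ) ^ 4 * F₁ fund) = 0 := by linarith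
    rcases mul_eq_zero.mp this with h | h
    · exact absurd h hc1
    · linarith
  -- the upper bound
  have h4 : ∀ t : ℕ, |F₁ (push (Heis.dil t) fund)| ≤ |M| * (A * (1 + (D * t : ℕ)) ^ 3 * 7) := by
    intro t
    set w : Ch G := push (fun n => φ (Heis.dil t n)) fund with hw
    have hww : push φ (push (Heis.dil t) fund) = w := by
      rw [push_push]; rfl
    have hwd : w ∈ Deg (G := G) 4 := push_mem_deg _ fund_mem_deg
    -- F w = F (S w)
    have hSw : F w = F (S w) := by
      have e1 : (S - (LinearMap.id : Ch G →ₗ[ℝ] Ch G)) w = (bd ∘ₗ H₄ + H₃ ∘ₗ bd) w := by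
        refine eq_of_sg _ _ (fun l hl => ?_) hwd
        simp only [LinearMap.sub_apply, LinearMap.id_apply, LinearMap.add_apply,
          LinearMap.comp_apply]
        exact (hH₄ l hl).2
      have e2 : H₄ w ∈ Deg (G := G) 5 := map_mem_of_sg H₄ (fun l hl => (hH₄ l hl).1) hwd
      simp only [LinearMap.sub_apply, LinearMap.id_apply, LinearMap.add_apply,
          LinearMap.comp_apply] at e1
      have e3 : F (S w) - F w = F (bd (H₄ w)) + F (H₃ (bd w)) := by
        rw [← map_sub, e1, map_add]
      rw [hc.apply e2] at e3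
      have e4 : InvUnder (MonoidHom.id Heis) (F ∘ₗ H₃ ∘ₗ push (fun n => φ (Heis.dil t n))) := by
        intro n l
        simp only [LinearMap.comp_apply, push_sg, MonoidHom.id_apply, List.map_map]
        have e5 : (l.map (fun n => φ (Heis.dil t n))).map (φ (Heis.dil t n) * ·) =
            l.map ((fun n => φ (Heis.dil t n)) ∘ fun x => n * x) := by
          rw [List.map_map]
          apply List.map_congr_left
          intro x _
          simp
        rw [← e5, hH₃, hi.apply (Heis.dil t n)]
      have e6 := fund_cycle _ e4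
      simp only [LinearMap.comp_apply] at e6
      rw [push_bd] at e6
      rw [e6] at e3
      linarith
    have e7 : F₁ (push (Heis.dil t) fund) = F (S w) := by
      rw [← hSw, ← hww]; rfl
    rw [e7]
    have e8 : |F (S w)| ≤ |M| * nrm (S w) := by
      refine abs_le_nrm F (S w) ?_
      intro m hm
      -- m lies in the support of some S (sg l)
      have : S w ∈ Finsupp.supported ℝ ℝ {m : List G | m.length = 4 ∧ C.Small R m} := by
        refine map_mem_of_sg S ?_ hwd
        intro l hl
        rw [Finsupp.mem_supported]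
        intro m hm
        exact hS l hl m hm
      rw [Finsupp.mem_supported] at this
      have hm' := this hm
      exact (hM m hm'.1 hm'.2).trans (le_abs_self M)
    have e9 : nrm (S w) ≤ A * (1 + (D * t : ℕ)) ^ 3 * 7 := by
      have e10 : nrm (S w) ≤ (A * (1 + (D * t : ℕ)) ^ 3 : ℝ) * nrm w := by
        refine nrm_map_le S w ?_
        intro l hl
        have hl4 : l.length = 4 := by
          have := hwd
          unfold Deg at this
          rw [Finsupp.mem_supported] at this
          exact this hl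
        exact hn l (D * t) hl4 (hD t l hl)
      refine e10.trans ?_
      refine mul_le_mul_of_nonneg_left ?_ (by positivity)
      exact (nrm_push_le _ _).trans nrm_fund_le
    exact e8.trans (mul_le_mul_of_nonneg_left e9 hM0)
  -- conclusion
  by_contra hne
  have hpos : 0 < |F₁ fund| := abs_pos.mpr hne
  have h5 : ∀ t : ℕ, (t : ℝ) ^ 4 * |F₁ fund| ≤ |M| * A * 7 * ((1 + D) ^ 3 * (1 + t) ^ 3) := by
    intro t
    have e1 := h4 t
    rw [h3 t, abs_mul, abs_of_nonneg (by positivity : (0 : ℝ) ≤ (t : ℝ) ^ 4)] at e1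
    refine e1.trans ?_
    have e2 : (1 + ((D * t : ℕ) : ℝ)) ≤ (1 + D) * (1 + t) := by
      push_cast
      nlinarith [Nat.cast_nonneg (α := ℝ) D, Nat.cast_nonneg (α := ℝ) t]
    have e3 : (1 + ((D * t : ℕ) : ℝ)) ^ 3 ≤ ((1 + D) * (1 + t)) ^ 3 :=
      pow_le_pow_left₀ (by positivity) e2 3
    have e4 : (0 : ℝ) ≤ |M| * A * 7 := by positivity
    calc |M| * (A * (1 + ((D * t : ℕ) : ℝ)) ^ 3 * 7)
        = |M| * A * 7 * (1 + ((D * t : ℕ) : ℝ)) ^ 3 := by ring
      _ ≤ |M| * A * 7 * ((1 + D) * (1 + t)) ^ 3 := mul_le_mul_of_nonneg_left e3 e4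
      _ = _ := by ring
  set Q : ℝ := |M| * A * 7 * (1 + D) ^ 3 with hQ
  have hQ0 : 0 ≤ Q := by positivity
  obtain ⟨t, ht⟩ := exists_nat_gt (8 * Q / |F₁ fund|)
  have ht' : 8 * Q < t * |F₁ fund| := by
    rwa [div_lt_iff₀ hpos] at ht
  have ht0 : 1 ≤ t := by
    rcases Nat.eq_zero_or_pos t with h | h
    · rw [h] at ht'
      simp only [Nat.cast_zero, zero_mul] at ht'
      linarith
    · exact h
  have h6 := h5 t
  have ht1 : (1 : ℝ) ≤ t := by exact_mod_cast ht0
  have h7 : (1 + (t : ℝ)) ^ 3 ≤ 8 * (t : ℝ) ^ 3 := by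
    have : (1 + (t : ℝ)) ≤ 2 * t := by linarith
    calc (1 + (t : ℝ)) ^ 3 ≤ (2 * t) ^ 3 := pow_le_pow_left₀ (by positivity) this 3
      _ = 8 * (t : ℝ) ^ 3 := by ring
  have h8 : (t : ℝ) ^ 4 * |F₁ fund| ≤ Q * (8 * (t : ℝ) ^ 3) := by
    calc (t : ℝ) ^ 4 * |F₁ fund| ≤ Q * (1 + (t : ℝ)) ^ 3 := by rw [hQ]; linarith [h6]
      _ ≤ _ := mul_le_mul_of_nonneg_left h7 hQ0
  have h9 : (t : ℝ) ^ 3 * (t * |F₁ fund| - 8 * Q) ≤ 0 := by nlinarith
  have h10 : 0 < (t : ℝ) ^ 3 := by positivity
  nlinarith

/-- A cocycle that vanishes on the fundamental cycle is a coboundary. -/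
theorem coboundary_of_fund {F : Ch Heis →ₗ[ℝ] ℝ} (hi : InvUnder (MonoidHom.id Heis) F)
    (hc : Closed 4 F) (h : F fund = 0) :
    ∃ E : Ch Heis →ₗ[ℝ] ℝ, InvUnder (MonoidHom.id Heis) E ∧
      ∀ l : List Heis, l.length = 4 → F (sg l) = E (bd (sg l)) := by
  obtain ⟨c₁, c₂, hcc, E, hEi, hE⟩ := heis_dim_one F nu hi nu_inv hc nu_closed
  have hEd : c₁ * F fund + c₂ * nu fund = E (bd fund) := by
    have := eq_of_sg (c₁ • F + c₂ • nu) (E ∘ₗ bd) (fun l hl => by simpa using hE l hl)
      fund_mem_deg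
    simpa using this
  rw [h, nu_fund, fund_cycle E hEi] at hEd
  have hc2 : c₂ = 0 := by linarith
  have hc1 : c₁ ≠ 0 := by
    rcases hcc with h' | h'
    · exact h'
    · exact absurd hc2 h'
  refine ⟨c₁⁻¹ • E, ?_, ?_⟩
  · intro n l
    simp only [LinearMap.smul_apply]
    rw [hEi n l]
  · intro l hl
    have := hE l hl
    rw [hc2, zero_mul, add_zero] at this
    rw [LinearMap.smul_apply, ← this, smul_eq_mul, ← mul_assoc, inv_mul_cancel₀ hc1, one_mul]


/-! ### functions of homogeneous cochains -/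

/-- The linear functional of a function on quadruples. -/
noncomputable def ofFun {G : Type} (f : (Fin 4 → G) → ℝ) : Ch G →ₗ[ℝ] ℝ :=
  Finsupp.linearCombination ℝ fun l : List G =>
    if h : l.length = 4 then f (fun i => l.get (i.cast h.symm)) else 0

theorem ofFun_sg {G : Type} (f : (Fin 4 → G) → ℝ) (p q r s : G) :
    ofFun f (sg [p, q, r, s]) = f ![p, q, r, s] := by
  simp only [ofFun, sg, Finsupp.linearCombination_single, one_smul]
  rw [dif_pos (by rfl)]
  congr 1
  ext i
  fin_cases i <;> rfl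

theorem ofFun_sg_ne {G : Type} (f : (Fin 4 → G) → ℝ) {l : List G} (h : l.length ≠ 4) :
    ofFun f (sg l) = 0 := by
  simp only [ofFun, sg, Finsupp.linearCombination_single, one_smul]
  rw [dif_neg h]

/-- A cocycle on `G` which is invariant under a Heisenberg group and is bounded by a `G`-invariant
function restricts to a coboundary. -/
theorem restriction_zero {G : Type} [Group G] (hG : IsAutomatic G) (φ : Heis →* G)
    (f : (Fin 4 → G) → ℝ) (hf : ∀ (n : Heis) (σ : Fin 4 → G), f (fun i => φ n * σ i) = f σ)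
    (B : (Fin 4 → G) → ℝ) (hB : ∀ (g : G) (σ : Fin 4 → G), B (fun i => g * σ i) = B σ)
    (hfB : ∀ σ, |f σ| ≤ B σ)
    (hc : ∀ τ : Fin 5 → G, ∑ i : Fin 5, (-1 : ℝ) ^ (i : ℕ) * f (fun j => τ (i.succAbove j)) = 0) :
    ∃ h : (Fin 3 → Heis) → ℝ, (∀ (n : Heis) (σ : Fin 3 → Heis), h (fun i => n * σ i) = h σ) ∧
      ∀ σ : Fin 4 → Heis, f (fun i => φ (σ i)) =
        ∑ i : Fin 4, (-1 : ℝ) ^ (i : ℕ) * h (fun j => σ (i.succAbove j)) := by
  obtain ⟨C⟩ := exists_comb G hG
  set F := ofFun f with hF
  have hi : InvUnder φ F := by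
    intro n l
    by_cases hl : l.length = 4
    · match l, hl with
      | [p, q, r, s], _ =>
        simp only [List.map_cons, List.map_nil]
        rw [hF, ofFun_sg, ofFun_sg, ← hf n ![p, q, r, s]]
        congr 1
        ext i
        fin_cases i <;> rfl
    · rw [hF, ofFun_sg_ne f hl, ofFun_sg_ne f (by simpa using hl)]
  have hcl : Closed 4 F := by
    intro l hl
    match l, hl with
    | [p, q, r, s, t], _ =>
      have h1 := hc ![p, q, r, s, t]
      simp only [bd_cons, bd_nil, map_zero, sub_zero, map_sub, cone_sg]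
      rw [hF]
      simp only [ofFun_sg]
      rw [Fin.sum_univ_five] at h1
      have e0 : (fun j : Fin 4 => (![p, q, r, s, t] : Fin 5 → G) ((0 : Fin 5).succAbove j)) =
          ![q, r, s, t] := by ext j; fin_cases j <;> rfl
      have e1 : (fun j : Fin 4 => (![p, q, r, s, t] : Fin 5 → G) ((1 : Fin 5).succAbove j)) =
          ![p, r, s, t] := by ext j; fin_cases j <;> rfl
      have e2 : (fun j : Fin 4 => (![p, q, r, s, t] : Fin 5 → G) ((2 : Fin 5).succAbove j)) =
          ![p, q, s, t] := by ext j; fin_cases j <;> rfl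
      have e3 : (fun j : Fin 4 => (![p, q, r, s, t] : Fin 5 → G) ((3 : Fin 5).succAbove j)) =
          ![p, q, r, t] := by ext j; fin_cases j <;> rfl
      have e4 : (fun j : Fin 4 => (![p, q, r, s, t] : Fin 5 → G) ((4 : Fin 5).succAbove j)) =
          ![p, q, r, s] := by ext j; fin_cases j <;> rfl
      rw [e0, e1, e2, e3, e4] at h1
      simp only [Fin.val_zero, Fin.val_one, Fin.val_two, pow_zero, pow_one, one_mul] at h1
      have p3 : (-1 : ℝ) ^ ((3 : Fin 5) : ℕ) = -1 := by norm_num [show ((3 : Fin 5) : ℕ) = 3 from rfl]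
      have p4 : (-1 : ℝ) ^ ((4 : Fin 5) : ℕ) = 1 := by norm_num [show ((4 : Fin 5) : ℕ) = 4 from rfl]
      rw [p3, p4] at h1
      linarith
  have hb : ∀ R : ℕ, ∃ M : ℝ, ∀ l : List G, l.length = 4 → C.Small R l → |F (sg l)| ≤ M := by
    intro R
    obtain ⟨M, hM⟩ := bounded_of_inv C (fun l => ofFun B (sg l)) (fun g l hl => by
      match l, hl with
      | [p, q, r, s], _ =>
        simp only [List.map_cons, List.map_nil]
        rw [ofFun_sg, ofFun_sg, ← hB g ![p, q, r, s]]
        congr 1
        ext i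
        fin_cases i <;> rfl) R
    refine ⟨M, fun l hl hs => ?_⟩
    refine le_trans ?_ (hM l hl hs)
    match l, hl with
    | [p, q, r, s], _ =>
      simp only [hF]
      rw [ofFun_sg, ofFun_sg]
      exact hfB _
  have hv := vanish C φ F hi hcl hb
  have hFi : InvUnder (MonoidHom.id Heis) (F ∘ₗ push φ) := by
    intro n l
    simp only [LinearMap.comp_apply, push_sg, MonoidHom.id_apply, List.map_map]
    have := hi n (l.map φ)
    rw [List.map_map] at this
    rw [← this]
    congr 2
    apply List.map_congr_left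
    intro x _
    simp
  have hFc : Closed 4 (F ∘ₗ push φ) := by
    intro l hl
    rw [LinearMap.comp_apply, push_bd, push_sg]
    exact hcl _ (by simpa using hl)
  obtain ⟨E, hEi, hE⟩ := coboundary_of_fund hFi hFc hv
  refine ⟨fun σ => E (sg (List.ofFn σ)), ?_, ?_⟩
  · intro n σ
    have := hEi n (List.ofFn σ)
    rw [List.map_ofFn] at this
    exact this
  · intro σ
    have h1 := hE (List.ofFn σ) (by simp)
    have e : List.ofFn σ = [σ 0, σ 1, σ 2, σ 3] := by
      simp only [List.ofFn_succ, List.ofFn_zero]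
      rfl
    rw [e] at h1
    simp only [LinearMap.comp_apply, push_sg, List.map_cons, List.map_nil, bd_cons, bd_nil,
      map_zero, sub_zero, map_sub, cone_sg] at h1
    rw [hF, ofFun_sg] at h1
    have e5 : (fun i => φ (σ i)) = ![φ (σ 0), φ (σ 1), φ (σ 2), φ (σ 3)] := by
      ext i; fin_cases i <;> rfl
    rw [e5, h1, Fin.sum_univ_four]
    have a0 : List.ofFn (fun j : Fin 3 => σ ((0 : Fin 4).succAbove j)) = [σ 1, σ 2, σ 3] := by
      simp only [List.ofFn_succ, List.ofFn_zero]; rfl
    have a1 : List.ofFn (fun j : Fin 3 => σ ((1 : Fin 4).succAbove j)) = [σ 0, σ 2, σ 3] := by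
      simp only [List.ofFn_succ, List.ofFn_zero]; rfl
    have a2 : List.ofFn (fun j : Fin 3 => σ ((2 : Fin 4).succAbove j)) = [σ 0, σ 1, σ 3] := by
      simp only [List.ofFn_succ, List.ofFn_zero]; rfl
    have a3 : List.ofFn (fun j : Fin 3 => σ ((3 : Fin 4).succAbove j)) = [σ 0, σ 1, σ 2] := by
      simp only [List.ofFn_succ, List.ofFn_zero]; rfl
    beta_reduce
    rw [a0, a1, a2, a3]
    simp only [Fin.val_zero, Fin.val_one, Fin.val_two, pow_zero, pow_one, one_mul]
    have p3 : (-1 : ℝ) ^ ((3 : Fin 4) : ℕ) = -1 := by norm_num [show ((3 : Fin 4) : ℕ) = 3 from rfl]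
    rw [p3]
    ring

/-! ### dimension at most three -/

/-- Lists up to translation. -/
def trSetoid {N G : Type} [Group N] [Group G] (φ : N →* G) : Setoid (List G) where
  r l m := ∃ n : N, m = l.map (φ n * ·)
  iseqv := by
    refine ⟨?_, ?_, ?_⟩
    · intro l
      refine ⟨1, ?_⟩
      simp
    · rintro l m ⟨n, rfl⟩
      refine ⟨n⁻¹, ?_⟩
      rw [List.map_map]
      conv_lhs => rw [← List.map_id l]
      apply List.map_congr_left
      intro x _
      simp
    · rintro l m k ⟨n, rfl⟩ ⟨n', rfl⟩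
      refine ⟨n' * n, ?_⟩
      rw [List.map_map]
      apply List.map_congr_left
      intro x _
      simp [mul_assoc]

/-- The coefficient of a translation class. -/
noncomputable def kap {N G : Type} [Group N] [Group G] (φ : N →* G)
    (q : Quotient (trSetoid φ)) : Ch G →ₗ[ℝ] ℝ :=
  Finsupp.lapply q ∘ₗ Finsupp.lmapDomain ℝ ℝ (Quotient.mk (trSetoid φ))

theorem kap_sg {N G : Type} [Group N] [Group G] (φ : N →* G) (q : Quotient (trSetoid φ))
    (l : List G) :
    kap φ q (sg l) = Finsupp.single (Quotient.mk (trSetoid φ) l) (1 : ℝ) q := by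
  simp [kap, sg, Finsupp.mapDomain_single]

theorem kap_inv {N G : Type} [Group N] [Group G] (φ : N →* G) (q : Quotient (trSetoid φ)) :
    InvUnder φ (kap φ q) := by
  intro n l
  rw [kap_sg, kap_sg]
  have : Quotient.mk (trSetoid φ) l = Quotient.mk (trSetoid φ) (l.map (φ n * ·)) :=
    Quotient.sound ⟨n, rfl⟩
  rw [this]

theorem kap_le {N G : Type} [Group N] [Group G] (φ : N →* G) (q : Quotient (trSetoid φ))
    (w : Ch G) : |kap φ q w| ≤ nrm w := by
  classical
  have := abs_le_nrm (kap φ q) w (c := 1) (fun l _ => by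
    rw [kap_sg, Finsupp.single_apply]
    split <;> simp)
  simpa using this

theorem eq_zero_of_kap {N G : Type} [Group N] [Group G] (φ : N →* G) {F : Ch G →ₗ[ℝ] ℝ}
    (hF : InvUnder φ F) {w : Ch G} (h : ∀ q, kap φ q w = 0) : F w = 0 := by
  have h1 : F = Finsupp.linearCombination ℝ (fun q : Quotient (trSetoid φ) => F (sg q.out)) ∘ₗ
      Finsupp.lmapDomain ℝ ℝ (Quotient.mk (trSetoid φ)) := by
    apply ext_sg
    intro l
    rw [LinearMap.comp_apply]
    have : Finsupp.lmapDomain ℝ ℝ (Quotient.mk (trSetoid φ)) (sg l) =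
        Finsupp.single (Quotient.mk (trSetoid φ) l) 1 := by
      simp [sg, Finsupp.mapDomain_single]
    rw [this, Finsupp.linearCombination_single, one_smul]
    obtain ⟨n, hn⟩ := Quotient.exact (Quotient.out_eq (Quotient.mk (trSetoid φ) l))
    have h3 := hF n (Quotient.mk (trSetoid φ) l).out
    rw [← hn] at h3
    exact h3
  have h2 : Finsupp.lmapDomain ℝ ℝ (Quotient.mk (trSetoid φ)) w = 0 := by
    ext q
    exact h q
  rw [h1, LinearMap.comp_apply, h2, map_zero]

theorem exists_retraction {N G : Type} [Group N] [Group G] (φ : N →* G)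
    (hφ : Function.Injective φ) :
    ∃ ρ : G → N, (∀ n g, ρ (φ n * g) = n * ρ g) ∧ ∀ n, ρ (φ n) = n := by
  classical
  have h1 : ∀ g : G, ∃ n : N,
      g = φ n * Quotient.out (Quotient.mk (QuotientGroup.rightRel φ.range) g) := by
    intro g
    have := Quotient.exact (Quotient.out_eq (Quotient.mk (QuotientGroup.rightRel φ.range) g))
    have h2 := (QuotientGroup.rightRel_apply.mp this)
    obtain ⟨n, hn⟩ := h2
    exact ⟨n, by rw [hn]; group⟩
  choose r hr using h1
  have hmul : ∀ n g, r (φ n * g) = n * r g := by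
    intro n g
    have e1 : Quotient.mk (QuotientGroup.rightRel φ.range) (φ n * g) =
        Quotient.mk (QuotientGroup.rightRel φ.range) g := by
      apply Quotient.sound
      show (QuotientGroup.rightRel φ.range) (φ n * g) g
      rw [QuotientGroup.rightRel_apply]
      exact ⟨n⁻¹, by simp⟩
    have e2 := hr (φ n * g)
    rw [e1] at e2
    have e3 : φ n * g = φ (n * r g) * Quotient.out (Quotient.mk (QuotientGroup.rightRel φ.range) g) := by
      conv_lhs => rw [hr g]
      rw [map_mul, mul_assoc]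
    exact (hφ (mul_right_cancel (e3.symm.trans e2))).symm
  refine ⟨fun g => r g * (r 1)⁻¹, ?_, ?_⟩
  · intro n g
    simp only [hmul, mul_assoc]
  · intro n
    have := hmul n 1
    rw [mul_one] at this
    simp only [this]
    group

/-- An automatic group of real dimension at most three contains no Heisenberg group. -/
theorem no_heis {G : Type} [Group G] (hG : IsAutomatic G) (hd : DimLeThree G) (φ : Heis →* G)
    (hφ : Function.Injective φ) : False := by
  classical
  obtain ⟨C⟩ := exists_comb G hG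
  obtain ⟨e, he1, he2, he3⟩ := exists_proj hd
  obtain ⟨ρ, hρ1, hρ2⟩ := exists_retraction φ hφ
  -- extend `e` by zero
  set e' : Ch G →ₗ[ℝ] Ch G := Finsupp.linearCombination ℝ
    (fun l : List G => if l.length = 4 then e (sg l) else 0) with he'
  have he's : ∀ l : List G, e' (sg l) = if l.length = 4 then e (sg l) else 0 := by
    intro l
    simp only [he', sg, Finsupp.linearCombination_single, one_smul]
  have he'd : ∀ w ∈ Deg (G := G) 4, e' w = e w := by
    intro w hw
    exact eq_of_sg e' e (fun l hl => by rw [he's]; exact if_pos hl) hw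
  have he'i : ∀ (g : G) (l : List G), e' (sg (l.map (g * ·))) = push (g * ·) (e' (sg l)) := by
    intro g l
    rw [he's, he's, List.length_map]
    by_cases hl : l.length = 4
    · rw [if_pos hl, if_pos hl, he1 g l hl]
    · rw [if_neg hl, if_neg hl, map_zero]
  have hnrm : ∀ (g : G) (w : Ch G), nrm (push (g * ·) w) = nrm w := by
    intro g w
    apply le_antisymm (nrm_push_le _ _)
    have h1 := nrm_push_le (g⁻¹ * ·) (push (g * ·) w)
    rw [push_push] at h1
    have h2 : (fun x : G => g⁻¹ * x) ∘ (fun x => g * x) = fun x => x := by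
      ext x; simp
    rw [h2, push_id] at h1
    exact h1
  have hkey : ∀ q : Quotient (trSetoid φ), kap φ q (e' (push φ fund)) = 0 := by
    intro q
    have := vanish C φ (kap φ q ∘ₗ e') ?_ ?_ ?_
    · exact this
    · intro n l
      rw [LinearMap.comp_apply, LinearMap.comp_apply, he'i, (kap_inv φ q).apply]
    · intro l hl
      rw [LinearMap.comp_apply, he'd _ (bd_sg_mem_deg hl), he3 l hl, map_zero]
    · intro R
      obtain ⟨M, hM⟩ := bounded_of_inv C (fun l => nrm (e' (sg l)))
        (fun g l _ => by rw [he'i, hnrm]) R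
      exact ⟨M, fun l hl hs => (kap_le φ q _).trans (hM l hl hs)⟩
  set V : Ch G →ₗ[ℝ] ℝ := nu ∘ₗ push ρ with hV
  have hVi : InvUnder φ V := by
    intro n l
    simp only [hV, LinearMap.comp_apply, push_sg, List.map_map]
    have := nu_inv n (l.map ρ)
    rw [List.map_map] at this
    rw [← this]
    congr 2
    apply List.map_congr_left
    intro x _
    simp [hρ1]
  have h1 : V (e' (push φ fund)) = 0 := eq_zero_of_kap φ hVi hkey
  have hZ : push φ fund ∈ Deg (G := G) 4 := push_mem_deg _ fund_mem_deg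
  have h2 : e (push φ fund) ∈ Deg (G := G) 4 := map_mem_of_sg e (fun l hl => (he2 l hl).1) hZ
  have h3 : bd (e (push φ fund)) = bd (push φ fund) :=
    eq_of_sg (bd ∘ₗ e) bd (fun l hl => by simpa using (he2 l hl).2) hZ
  have h4 : V (push φ fund - e (push φ fund)) = 0 := by
    have h5 : bd (push φ fund - e (push φ fund)) = 0 := by rw [map_sub, h3, sub_self]
    rw [eq_bd_cone (x := (1 : G)) h5, hV, LinearMap.comp_apply, push_bd]
    exact nu_closed.apply (push_mem_deg _ (cone_mem_deg _ (Submodule.sub_mem _ hZ h2)))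
  rw [map_sub, ← he'd _ hZ, h1, sub_zero, hV, LinearMap.comp_apply, push_push] at h4
  have h6 : ρ ∘ φ = fun x => x := by ext x <;> simp [hρ2]
  rw [h6, push_id, nu_fund] at h4
  exact one_ne_zero h4

/-- A torsion-free nilpotent subgroup is commutative. -/
theorem comm_of_torsionFree {G : Type} [Group G] (hG : IsAutomatic G) (hd : DimLeThree G)
    (H : Subgroup G) (hH : Group.IsNilpotent H) (ht : ∀ g ∈ H, g ≠ 1 → ¬ IsOfFinOrder g) :
    ∀ a ∈ H, ∀ b ∈ H, a * b = b * a := by
  by_contra hcon
  push Not at hcon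
  obtain ⟨a, ha, b, hb, hab⟩ := hcon
  obtain ⟨φ, hφ⟩ := exists_heis (N := H)
    (by
      intro g hg hfin
      refine ht g.1 g.2 ?_ ?_
      · intro h; exact hg (Subtype.ext h)
      · exact H.subtype.isOfFinOrder hfin)
    ⟨⟨a, ha⟩, ⟨b, hb⟩, fun h => hab (by simpa using congrArg Subtype.val h)⟩
  exact no_heis hG hd (H.subtype.comp φ) (by
    rw [MonoidHom.coe_comp]
    exact Subtype.val_injective.comp hφ)

/-- Nilpotent subgroups that are virtually torsion-free are virtually abelian. -/
theorem virtually_abelian {G : Type} [Group G] (hG : IsAutomatic G) (hd : DimLeThree G)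
    (H : Subgroup G) (hH : Group.IsNilpotent H) (T : Subgroup G) (hT : T.relIndex H ≠ 0)
    (ht : ∀ g ∈ T, g ≠ 1 → ¬ IsOfFinOrder g) :
    ∃ A : Subgroup G, A ≤ H ∧ (A.subgroupOf H).index ≠ 0 ∧
      ∀ a ∈ A, ∀ b ∈ A, a * b = b * a := by
  refine ⟨T ⊓ H, inf_le_right, ?_, ?_⟩
  · have : (T ⊓ H).subgroupOf H = T.subgroupOf H := by
      rw [Subgroup.inf_subgroupOf_right]
    rw [this]
    exact hT
  · apply comm_of_torsionFree hG hd (T ⊓ H)
    · have : Group.IsNilpotent ((T ⊓ H).subgroupOf H) := inferInstance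
      exact (Group.isNilpotent_congr (Subgroup.subgroupOfEquivOfLe (inf_le_right : T ⊓ H ≤ H))).mp
        this
    · intro g hg
      exact ht g hg.1

/-- Finitely generated nilpotent subgroups are virtually abelian. -/
theorem virtually_abelian_fg {G : Type} [Group G] (hG : IsAutomatic G) (hd : DimLeThree G)
    (H : Subgroup G) (hH : Group.IsNilpotent H) (hfg : H.FG) :
    ∃ A : Subgroup G, A ≤ H ∧ (A.subgroupOf H).index ≠ 0 ∧
      ∀ a ∈ A, ∀ b ∈ A, a * b = b * a := by
  obtain ⟨B, hB, hBc⟩ := virtually_abelian_of_fg H ((Group.fg_iff_subgroup_fg H).mpr hfg)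
    (fun φ hφ => no_heis hG hd (H.subtype.comp φ) (by
      rw [MonoidHom.coe_comp]
      exact Subtype.val_injective.comp hφ))
  refine ⟨B.map H.subtype, Subgroup.map_subtype_le B, ?_, ?_⟩
  · have : (B.map H.subtype).subgroupOf H = B :=
      Subgroup.comap_map_eq_self_of_injective H.subtype_injective B
    rw [this]
    exact hB
  · rintro _ ⟨a, ha, rfl⟩ _ ⟨b, hb, rfl⟩
    rw [← map_mul, ← map_mul, hBc a ha b hb]

end Pool.Agent.AutDim3
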