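import Pool.Agent.AutDim3.Defs

set_option autoImplicit false

namespace Pool.Agent.AutDim3

open commutatorElement

private theorem exists_pair {N : Type} [Group N] [Group.IsNilpotent N]
    (hn : ∃ g h : N, g * h ≠ h * g) :
    ∃ a b : N, ⁅a, b⁆ ≠ 1 ∧ ⁅a, b⁆ ∈ Subgroup.center N := by
  by_contra hcon
  push Not at hcon
  have h1 : ∀ n, Subgroup.upperCentralSeries N n ≤ Subgroup.center N := by
    intro n
    induction n with
    | zero =>
      rw [Subgroup.upperCentralSeries_zero]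
      exact bot_le
    | succ n ih =>
      intro a ha
      have ha' : ∀ y, ⁅a, y⁆ ∈ Subgroup.upperCentralSeries N n := ha
      rw [Subgroup.mem_center_iff]
      intro y
      by_contra hne
      refine hcon a y ?_ (ih (ha' y))
      intro h
      rw [commutatorElement_eq_one_iff_mul_comm] at h
      exact hne h.symm
  obtain ⟨n, hn'⟩ := Group.IsNilpotent.nilpotent N
  obtain ⟨g, h, hgh⟩ := hn
  have h2 : g ∈ Subgroup.center N := h1 n (by rw [hn']; exact Subgroup.mem_top g)
  rw [Subgroup.mem_center_iff] at h2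
  exact hgh (h2 h).symm

/-- A torsion-free nilpotent group that is not commutative contains the Heisenberg group. -/
theorem exists_heis {N : Type} [Group N] [Group.IsNilpotent N]
    (ht : ∀ g : N, g ≠ 1 → ¬ IsOfFinOrder g) (hn : ∃ g h : N, g * h ≠ h * g) :
    ∃ φ : Heis →* N, Function.Injective φ := by
  obtain ⟨a, b, hz1, hzc⟩ := exists_pair hn
  set z : N := ⁅a, b⁆ with hz
  have hzz : ∀ g : N, Commute z g := by
    intro g
    rw [Subgroup.mem_center_iff] at hzc
    exact (hzc g).symm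
  have hzp : ∀ (n : ℤ) (g : N), Commute (z ^ n) g := fun n g => (hzz g).zpow_left n
  have hz0 : ∀ n : ℤ, z ^ n = 1 → n = 0 := by
    intro n h
    by_contra hne
    exact ht z hz1 (isOfFinOrder_iff_zpow_eq_one.2 ⟨n, hne, h⟩)
  have hconj : a * b * a⁻¹ = z * b := by
    rw [hz, commutatorElement_def]
    group
  have h1 : ∀ m : ℤ, a * b ^ m * a⁻¹ = z ^ m * b ^ m := by
    intro m
    rw [← conj_zpow, hconj, (hzz b).mul_zpow]
  have h2 : ∀ m : ℤ, (b ^ m)⁻¹ * a * b ^ m = z ^ m * a := by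
    intro m
    have h3 : a * b ^ m = z ^ m * b ^ m * a := by
      rw [← h1 m]
      group
    rw [mul_assoc, h3, (hzp m (b ^ m)).eq]
    group
  have key : ∀ x m : ℤ, a ^ x * b ^ m = b ^ m * a ^ x * z ^ (x * m) := by
    intro x m
    have h3 : ((b ^ m)⁻¹ * a * (b ^ m)⁻¹⁻¹) ^ x = (b ^ m)⁻¹ * a ^ x * (b ^ m)⁻¹⁻¹ := conj_zpow
    rw [inv_inv, h2, (hzp m a).mul_zpow, ← zpow_mul] at h3
    have h4 : a ^ x * b ^ m = b ^ m * ((b ^ m)⁻¹ * a ^ x * b ^ m) := by group
    rw [h4, ← h3, (hzp (m * x) (a ^ x)).eq, mul_comm m x, mul_assoc]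
  let φ : Heis →* N :=
    { toFun := fun g => b ^ g.y * a ^ g.x * z ^ g.z
      map_one' := by
        simp
      map_mul' := by
        intro g h
        show b ^ (g.y + h.y) * a ^ (g.x + h.x) * z ^ (g.z + h.z + g.x * h.y) =
          b ^ g.y * a ^ g.x * z ^ g.z * (b ^ h.y * a ^ h.x * z ^ h.z)
        have e1 : b ^ g.y * a ^ g.x * z ^ g.z * (b ^ h.y * a ^ h.x * z ^ h.z)
            = b ^ g.y * (a ^ g.x * b ^ h.y) * a ^ h.x * z ^ h.z * z ^ g.z := by
          have h5 : b ^ g.y * a ^ g.x * z ^ g.z * (b ^ h.y * a ^ h.x * z ^ h.z)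
            = b ^ g.y * a ^ g.x * (z ^ g.z * (b ^ h.y * a ^ h.x * z ^ h.z)) := by
            simp only [mul_assoc]
          rw [h5, (hzp g.z _).eq]
          simp only [mul_assoc]
        have e2 : b ^ g.y * (b ^ h.y * a ^ g.x * z ^ (g.x * h.y)) * a ^ h.x * z ^ h.z * z ^ g.z
            = b ^ g.y * b ^ h.y * a ^ g.x * (z ^ (g.x * h.y) * a ^ h.x) * z ^ h.z * z ^ g.z := by
          simp only [mul_assoc]
        rw [e1, key, e2, (hzp _ (a ^ h.x)).eq, zpow_add b, zpow_add a, zpow_add z, zpow_add z]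
        have e3 : z ^ g.z * z ^ h.z * z ^ (g.x * h.y) = z ^ (g.x * h.y) * z ^ h.z * z ^ g.z := by
          rw [← zpow_add, ← zpow_add, ← zpow_add, ← zpow_add]
          congr 1
          ring
        rw [e3]
        simp only [mul_assoc] }
  refine ⟨φ, ?_⟩
  rw [injective_iff_map_eq_one]
  intro g hg
  have hg' : b ^ g.y * a ^ g.x * z ^ g.z = 1 := hg
  have hc : b ^ g.y * a ^ g.x = z ^ (-g.z) := by
    rw [zpow_neg]
    exact eq_inv_of_mul_eq_one_left hg'
  have hy : g.y = 0 := by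
    apply hz0
    have h5 : a * (b ^ g.y * a ^ g.x) = (b ^ g.y * a ^ g.x) * a := by
      rw [hc]
      exact (hzp _ a).eq.symm
    have h6 : a * b ^ g.y = z ^ g.y * b ^ g.y * a := by
      rw [← h1 g.y]
      group
    have h7 : z ^ g.y * (b ^ g.y * a * a ^ g.x) = b ^ g.y * a * a ^ g.x := by
      calc z ^ g.y * (b ^ g.y * a * a ^ g.x) = z ^ g.y * b ^ g.y * a * a ^ g.x := by
            simp only [mul_assoc]
        _ = a * (b ^ g.y * a ^ g.x) := by rw [← h6]; simp only [mul_assoc]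
        _ = b ^ g.y * (a ^ g.x * a) := by rw [h5]; simp only [mul_assoc]
        _ = b ^ g.y * a * a ^ g.x := by
            rw [← zpow_add_one, mul_assoc, ← zpow_one_add, add_comm]
    exact mul_eq_right.1 h7
  have hx : g.x = 0 := by
    apply hz0
    rw [hy, zpow_zero, one_mul] at hc
    have h5 : a ^ g.x * b ^ (1 : ℤ) = b ^ (1 : ℤ) * a ^ g.x := by
      rw [hc]
      exact (hzp _ _).eq
    have h6 := key g.x 1
    rw [h5, mul_one] at h6
    exact (mul_eq_left.1 h6.symm)
  have hzz0 : g.z = 0 := by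
    apply hz0
    rw [hy, hx, zpow_zero, zpow_zero, one_mul, one_mul] at hg'
    exact hg'
  exact Heis.ext hx hy hzz0

end Pool.Agent.AutDim3
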