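import Pool.Agent.AutDim3.Defs

set_option autoImplicit false

namespace Pool.Agent.AutDim3

section Ball

variable {G : Type} [Group G] (S : Finset G)

/-- The ball of radius `n`. -/
private def ball (n : ℕ) : Set G :=
  {g | ∃ l : List G, l.length ≤ n ∧ (∀ x ∈ l, x ∈ S) ∧ l.prod = g}

variable {S}

private theorem ball_mono {m n : ℕ} (h : m ≤ n) {g : G} (hg : g ∈ ball S m) : g ∈ ball S n := by
  obtain ⟨l, h1, h2, h3⟩ := hg
  exact ⟨l, h1.trans h, h2, h3⟩

private theorem ball_one (n : ℕ) : (1 : G) ∈ ball S n := ⟨[], by simp, by simp, rfl⟩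

private theorem ball_inv (hS : ∀ s ∈ S, s⁻¹ ∈ S) {n : ℕ} {g : G} (hg : g ∈ ball S n) :
    g⁻¹ ∈ ball S n := by
  obtain ⟨l, h1, h2, h3⟩ := hg
  refine ⟨(l.map (fun x => x⁻¹)).reverse, by simpa using h1, ?_, ?_⟩
  · intro x hx
    rw [List.mem_reverse, List.mem_map] at hx
    obtain ⟨y, hy, rfl⟩ := hx
    exact hS y (h2 y hy)
  · rw [← h3, List.prod_inv_reverse]

private theorem ball_mul {m n : ℕ} {g h : G} (hg : g ∈ ball S m) (hh : h ∈ ball S n) :
    g * h ∈ ball S (m + n) := by
  obtain ⟨l, h1, h2, h3⟩ := hg
  obtain ⟨l', h1', h2', h3'⟩ := hh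
  refine ⟨l ++ l', by simp; omega, ?_, by rw [List.prod_append, h3, h3']⟩
  intro x hx
  rcases List.mem_append.1 hx with h | h
  · exact h2 x h
  · exact h2' x h

private theorem ball_finite (n : ℕ) : (ball S n).Finite := by
  induction n with
  | zero =>
    refine (Set.finite_singleton (1 : G)).subset ?_
    rintro g ⟨l, h1, _, h3⟩
    have : l = [] := List.length_eq_zero_iff.1 (by omega)
    rw [this] at h3
    exact h3.symm
  | succ n ih =>
    refine ((Set.finite_singleton (1 : G)).union
      ((S.finite_toSet.prod ih).image (fun p => p.1 * p.2))).subset ?_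
    rintro g ⟨l, h1, h2, h3⟩
    match l, h1, h2, h3 with
    | [], _, _, h3 => exact Or.inl h3.symm
    | x :: l, h1, h2, h3 =>
      refine Or.inr ⟨(x, l.prod), ⟨h2 x (by simp), l, by simpa using h1,
        fun y hy => h2 y (by simp [hy]), rfl⟩, ?_⟩
      rw [← h3]
      simp

variable (S) in
/-- The word length. -/
private noncomputable def wlen (g : G) : ℕ := sInf {n | g ∈ ball S n}

private theorem wlen_le_iff (hg : ∀ g : G, ∃ n, g ∈ ball S n) {g : G} {n : ℕ} :
    wlen S g ≤ n ↔ g ∈ ball S n := by
  constructor
  · intro h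
    have : wlen S g ∈ {n | g ∈ ball S n} := Nat.sInf_mem (hg g)
    exact ball_mono h this
  · intro h
    exact Nat.sInf_le h

end Ball

/-- An automatic group has a combing of linear speed. -/
theorem exists_comb (G : Type) [Group G] (h : IsAutomatic G) : Nonempty (Comb G) := by
  classical
  obtain ⟨S, hS, L, ⟨σ, _, M, hM⟩, hsurj, K, hK⟩ := h
  have hb : ∀ g : G, ∃ n, g ∈ ball S n := by
    intro g
    obtain ⟨w, _, hw⟩ := hsurj g
    refine ⟨w.length, w.map Subtype.val, by simp, ?_, hw⟩
    intro x hx
    rw [List.mem_map] at hx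
    obtain ⟨y, _, rfl⟩ := hx
    exact y.2
  have hle : ∀ {g : G} {n : ℕ}, wlen S g ≤ n ↔ g ∈ ball S n := wlen_le_iff hb
  -- minimal words
  have hmin : ∀ g : G, ∃ w ∈ L, (w.map Subtype.val).prod = g ∧
      ∀ v ∈ L, (v.map Subtype.val).prod = g → w.length ≤ v.length := by
    intro g
    have hex : ∃ n, ∃ w ∈ L, (w.map Subtype.val).prod = g ∧ w.length = n := by
      obtain ⟨w, h1, h2⟩ := hsurj g
      exact ⟨_, w, h1, h2, rfl⟩
    obtain ⟨w, h1, h2, h3⟩ := Nat.find_spec hex
    refine ⟨w, h1, h2, fun v hv hv2 => ?_⟩
    rw [h3]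
    exact Nat.find_min' hex ⟨v, hv, hv2, rfl⟩
  choose wd hwL hwp hwm using hmin
  have hfel : ∀ g s, s ∈ S → ∀ t, (((wd g).take t).map Subtype.val).prod⁻¹ *
      (((wd (g * s)).take t).map Subtype.val).prod ∈ ball S K := by
    intro g s hs t
    obtain ⟨l, h1, h2, h3⟩ := hK (wd g) (hwL g) (wd (g * s)) (hwL _)
      ⟨[s], by simp, by simpa using hs, by rw [hwp, hwp]; simp⟩ t
    exact ⟨l, h1, h2, by rw [← h3]; group⟩
  -- lengths of minimal words
  set N0 : ℕ := Fintype.card σ * (ball_finite (S := S) K).toFinset.card + 1 with hN0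
  have hstep : ∀ g s, s ∈ S → (wd (g * s)).length ≤ (wd g).length + N0 := by
    intro g s hs
    by_contra hcon
    push Not at hcon
    set v := wd (g * s) with hv
    set n := (wd g).length with hn
    obtain ⟨i, hi, j, hj, hij, heq⟩ := Finset.exists_ne_map_eq_of_card_lt_of_maps_to
      (s := Finset.range N0) (t := (Finset.univ : Finset σ) ×ˢ (ball_finite (S := S) K).toFinset)
      (f := fun i => (M.eval (v.take (n + i)), g⁻¹ * ((v.take (n + i)).map Subtype.val).prod))
      (by rw [Finset.card_product, Finset.card_univ, Finset.card_range]; omega)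
      (by
        intro i _
        rw [Finset.mem_coe, Finset.mem_product, Set.Finite.mem_toFinset]
        refine ⟨Finset.mem_univ _, ?_⟩
        have h1 := hfel g s hs (n + i)
        rw [List.take_of_length_le (by omega), hwp g] at h1
        exact h1)
    have key : ∀ i j, i < j → j < N0 →
        M.eval (v.take (n + i)) = M.eval (v.take (n + j)) →
        ((v.take (n + i)).map Subtype.val).prod = ((v.take (n + j)).map Subtype.val).prod →
        False := by
      intro i j hij hj e1 e2
      set v' := v.take (n + i) ++ v.drop (n + j) with hv'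
      have h1 : M.eval v' = M.eval v := by
        have h2 : M.eval v = M.eval (v.take (n + j) ++ v.drop (n + j)) := by
          rw [List.take_append_drop]
        rw [h2, hv']
        unfold DFA.eval at e1 ⊢
        rw [DFA.evalFrom_of_append, DFA.evalFrom_of_append, e1]
      have h3 : v' ∈ L := by
        have h4 : v ∈ L := hwL _
        rw [← hM, DFA.mem_accepts] at h4 ⊢
        rw [h1]
        exact h4
      have h5 : (v'.map Subtype.val).prod = g * s := by
        rw [hv', List.map_append, List.prod_append, e2, ← List.prod_append, ← List.map_append,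
          List.take_append_drop]
        exact hwp _
      have h6 := hwm (g * s) v' h3 h5
      rw [hv', List.length_append, List.length_take, List.length_drop, ← hv] at h6
      omega
    have e1 := congrArg Prod.fst heq
    have e2 := mul_left_cancel (congrArg Prod.snd heq)
    rw [Finset.mem_range] at hi hj
    rcases lt_or_gt_of_ne hij with h | h
    · exact key i j h hj e1 e2
    · exact key j i h hi e1.symm e2.symm
  have hlin : ∀ (l : List G), (∀ x ∈ l, x ∈ S) → ∀ g, (wd (g * l.prod)).length ≤
      (wd g).length + N0 * l.length := by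
    intro l
    induction l with
    | nil => intro _ g; simp
    | cons s l ih =>
      intro hl g
      have h1 := ih (fun x hx => hl x (by simp [hx])) (g * s)
      have h2 := hstep g s (hl s (by simp))
      rw [List.prod_cons, ← mul_assoc, List.length_cons]
      have h3 : N0 * (l.length + 1) = N0 * l.length + N0 := by ring
      omega
  refine ⟨{
    len := wlen S
    len_one := Nat.le_zero.1 (hle.2 (ball_one 0))
    len_inv := ?_
    len_mul := ?_
    fin_ball := ?_
    u := fun g t => (((wd g).take t).map Subtype.val).prod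
    K := K + 1
    c := (wd 1).length + N0
    u_zero := ?_
    u_step := ?_
    u_fellow := ?_
    u_end := ?_ }⟩
  · intro g
    apply le_antisymm
    · exact hle.2 (ball_inv hS (hle.1 le_rfl))
    · have : wlen S g⁻¹⁻¹ ≤ wlen S g⁻¹ := hle.2 (ball_inv hS (hle.1 le_rfl))
      rwa [inv_inv] at this
  · intro g h
    exact hle.2 (ball_mul (hle.1 le_rfl) (hle.1 le_rfl))
  · intro n
    refine (ball_finite (S := S) n).subset ?_
    intro g hg
    exact hle.1 hg
  · intro g
    simp
  · intro g t
    rw [hle]
    by_cases ht : t < (wd g).length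
    · rw [List.take_add_one, List.getElem?_eq_getElem ht]
      refine ⟨[((wd g)[t] : G)], by simp, ?_, by
        rw [Option.toList_some, List.map_append, List.prod_append, inv_mul_cancel_left,
          List.map_cons, List.map_nil]⟩
      intro x hx
      rw [List.mem_singleton] at hx
      rw [hx]
      exact ((wd g)[t]).2
    · rw [List.take_of_length_le (by omega), List.take_of_length_le (by omega), inv_mul_cancel]
      exact ball_one _
  · intro g h t
    obtain ⟨l, h1, h2, h3⟩ := (hle (g := g⁻¹ * h)).1 le_rfl
    have key : ∀ (l : List G), (∀ x ∈ l, x ∈ S) → ∀ g,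
        wlen S ((((wd g).take t).map Subtype.val).prod⁻¹ *
          (((wd (g * l.prod)).take t).map Subtype.val).prod) ≤ (K + 1) * l.length := by
      intro l
      induction l with
      | nil =>
        intro _ g
        rw [List.prod_nil, mul_one, inv_mul_cancel, hle]
        exact ball_one _
      | cons s l ih =>
        intro hl g
        have h1 := ih (fun x hx => hl x (by simp [hx])) (g * s)
        have h2 := hfel g s (hl s (by simp)) t
        rw [List.prod_cons, ← mul_assoc, List.length_cons, hle]
        have h4 := ball_mul h2 (hle.1 h1)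
        refine ball_mono (m := K + (K + 1) * l.length) (by
          have : (K + 1) * (l.length + 1) = (K + 1) * l.length + (K + 1) := by ring
          omega) ?_
        convert h4 using 1
        group
    have h4 := key l h2 g
    rw [h3, mul_inv_cancel_left] at h4
    exact h4.trans (Nat.mul_le_mul_left _ h1)
  · intro g t ht
    obtain ⟨l, h1, h2, h3⟩ := (hle (g := g)).1 le_rfl
    have h4 := hlin l h2 1
    rw [one_mul, h3] at h4
    have h5 : N0 * l.length ≤ N0 * wlen S g := Nat.mul_le_mul_left _ h1
    have h6 : (wd g).length ≤ t := by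
      refine le_trans ?_ ht
      have h7 : ((wd 1).length + N0) * (1 + wlen S g) =
        (wd 1).length + N0 + (wd 1).length * wlen S g + N0 * wlen S g := by ring
      omega
    show (((wd g).take t).map Subtype.val).prod = g
    rw [List.take_of_length_le h6]
    exact hwp g

end Pool.Agent.AutDim3
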